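import Pool.Agent.Run7.h439.DC.Res
import Pool.Agent.H723R2.LSWDens
import Pool.Agent.R105.WR.Law

set_option autoImplicit false

/-!
# Integers in the wandering domains of `f₀` and the digits in odd bases

We consider the integers of a given sign whose absolute values lie in a class given by the residues of
strongly additive digit functions (for example sums of digits) in pairwise coprime odd bases. Every completely
invariant set of `f₀` has its proportional share of integers in every such class, with a power saving which is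
uniform in the set. Hence the integers in wandering domains, and those in the basins of the superattracting
cycles, are spread evenly over the classes; the distances to the Julia set have in each class the same law as
among all integers, and Q1 is decided by almost all integers of one class.
-/

namespace Pool.Agent.Results.MP_071ec9_an.DigitClasses

open Filter Topology Metric Set Pool.Agent.H384R2.Fatou

/-- The entire function of Letherman, Schleicher and Wood; `f₀ n = T n` for every integer `n`. -/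
noncomputable def f₀ (z : ℂ) : ℂ :=
  z / 2 + (z + 1 / 2) * ((1 - Complex.cos (Real.pi * z)) / 2) +
    1 / Real.pi * (1 / 2 - Complex.cos (Real.pi * z)) * Complex.sin (Real.pi * z)

/-- the Fatou component of the integer `n` is a wandering domain of `f₀` -/
def Wandering (n : ℤ) : Prop := IsWanderingDomain f₀ (FatouComponent f₀ n)

/-- the orbits of `m` and `n` under `f₀` merge -/
def Merge (m n : ℤ) : Prop := ∃ i j : ℕ, f₀^[i] (m : ℂ) = f₀^[j] (n : ℂ)

/-- The integer `n` is in the Fatou set, its component is not a wandering domain and is attracted to the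
cycle of `a`, of period (dividing) `p`: all points `z` of the component satisfy `f₀^(k+pm)(z) → a` as
`m → ∞`, for some `k`. -/
def InBasin (a : ℤ) (p : ℕ) (n : ℤ) : Prop :=
  (n : ℂ) ∈ FatouSet f₀ ∧ ¬ IsWanderingDomain f₀ (FatouComponent f₀ n) ∧
    ∃ k : ℕ, ∀ z ∈ FatouComponent f₀ n, Tendsto (fun m : ℕ => f₀^[k + p * m] z) atTop (𝓝 (a : ℂ))

/-- The cycles of `f₀` in the integers of sign `s`, each represented by its element of least absolute
value. -/
def IsCycleRep (s a : ℤ) : Prop :=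
  0 < s * a ∧ (∃ p : ℕ, 0 < p ∧ f₀^[p] (a : ℂ) = a) ∧
    ∀ (j : ℕ) (b : ℤ), f₀^[j] (a : ℂ) = b → s * a ≤ s * b

/-- the set `S` is completely invariant under `f₀` -/
def CompletelyInvariant (S : Set ℂ) : Prop := ∀ z : ℂ, z ∈ S ↔ f₀ z ∈ S

/-- the orbit of `x` under `f₀` enters the disc `|z| ≤ R` at the time `k` for the first time -/
def Enters (R k : ℕ) (x : ℤ) : Prop := ‖f₀^[k] (x : ℂ)‖ ≤ R ∧ ∀ i < k, (R : ℝ) < ‖f₀^[i] (x : ℂ)‖

/-- the distance of `n` to the Julia set of `f₀` -/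
noncomputable def dist (n : ℤ) : ℝ := infDist (n : ℂ) (FatouSet f₀)ᶜ

/-- `W` is strongly `q`-additive: `W(n)` is the sum of the values of `W` at the digits of `n` in base `q`. -/
def StronglyAdditive (q : ℕ) (W : ℕ → ℤ) : Prop := ∀ n r : ℕ, r < q → W (q * n + r) = W n + W r

/-- There is no prime `p ∣ m` such that `W(r) ≡ r W(1)` modulo `p` for all `r ≤ q`. For the sum of the
digits in base `q` this says that `m` is coprime to `q - 1`. -/
def Unobstructed (q : ℕ) (W : ℕ → ℤ) (m : ℕ) : Prop :=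
  ∀ p : ℕ, p.Prime → p ∣ m → ∃ r : ℕ, r ≤ q ∧ ¬ W r ≡ r * W 1 [ZMOD p]

/-- The data: pairwise coprime odd bases `q i ≥ 3`, strongly `q i`-additive functions `W i` with integer
values, and moduli `m i ≥ 1` without obstruction. -/
structure Data {l : ℕ} (q m : Fin l → ℕ) (W : Fin l → ℕ → ℤ) : Prop where
  odd : ∀ i, 3 ≤ q i ∧ q i % 2 = 1
  coprime : ∀ i j, i ≠ j → Nat.Coprime (q i) (q j)
  additive : ∀ i, StronglyAdditive (q i) (W i)
  pos : ∀ i, 1 ≤ m i
  free : ∀ i, Unobstructed (q i) (W i) (m i)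

/-- the class: `W i (n) ≡ a i` modulo `m i` for all `i` -/
def InClass {l : ℕ} (m : Fin l → ℕ) (W : Fin l → ℕ → ℤ) (a : Fin l → ℤ) (n : ℕ) : Prop :=
  ∀ i, W i n ≡ a i [ZMOD m i]

/-- the number of the `1 ≤ n ≤ X` with the property `P` -/
noncomputable def count (P : ℕ → Prop) (X : ℕ) : ℝ := ({n : ℕ | 1 ≤ n ∧ n ≤ X ∧ P n}.ncard : ℝ)

/-- The set of the positive integers with the property `P` has natural density `l`. -/
def HasDensity (P : ℕ → Prop) (l : ℝ) : Prop := Tendsto (fun X : ℕ => count P X / X) atTop (𝓝 l)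

open Pool.Agent.Run7.h439.DC
open Pool.Agent.H319R3.GC (Tm Adm)
open Pool.Agent.Y965.PL (Mn MnS ind ind_pos ind_neg ind_congr ind_nonneg)
open Pool.Agent.H723R2.LSW (T Wild)

theorem T_eq : Tm 2 m3 (r3 1) = T := by rw [Tm3]; rfl

theorem f_int (n : ℤ) : f₀ (n : ℂ) = ((T n : ℤ) : ℂ) := Pool.Agent.H723R2.LSW.f₀_int n

theorem f_iter (n : ℤ) (k : ℕ) : f₀^[k] (n : ℂ) = ((T^[k] n : ℤ) : ℂ) := Pool.Agent.H723R2.LSW.f₀_iter n k

theorem f_norm (n : ℤ) (k : ℕ) : ‖f₀^[k] (n : ℂ)‖ = ((|T^[k] n| : ℤ) : ℝ) := by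
  rw [f_iter, Complex.norm_intCast]; push_cast; rfl

theorem wand_iff (n : ℤ) : Wandering n ↔ Wild n := Pool.Agent.H723R2.LSW.wandering_iff n

theorem merge_iff (a b : ℤ) : Merge a b ↔ Pool.Agent.H723R2.LSW.Mer a b := by
  constructor
  · rintro ⟨i, j, h⟩
    rw [f_iter, f_iter] at h
    exact ⟨i, j, by exact_mod_cast h⟩
  · rintro ⟨i, j, h⟩
    exact ⟨i, j, by rw [f_iter, f_iter, h]⟩

theorem count_ind (P : ℕ → Prop) (X : ℕ) : count P X = ∑ n ∈ Finset.Icc 1 X, ind P n := by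
  classical
  unfold count ind
  rw [Finset.sum_boole]
  have e : {n : ℕ | 1 ≤ n ∧ n ≤ X ∧ P n} = ((Finset.Icc 1 X).filter fun n => P n : Finset ℕ) := by
    ext n
    simp only [Set.mem_ofPred_eq, Finset.coe_filter, Finset.mem_Icc, and_assoc]
  rw [e, Set.ncard_coe_finset]

theorem along_of {P Q : ℕ → Prop} {d : ℝ} (h : Mn (ind Q) d) (hPQ : ∀ n, 1 ≤ n → (P n ↔ Q n)) : HasDensity P d := by
  unfold HasDensity
  unfold Mn at h
  refine h.congr fun X => ?_
  rw [count_ind P X]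
  congr 1
  apply Finset.sum_congr rfl
  intro n hn
  exact ind_congr (hPQ _ (Finset.mem_Icc.1 hn).1).symm

theorem dens_unique {P : ℕ → Prop} {a b : ℝ} (h : HasDensity P a) (h' : HasDensity P b) : a = b := tendsto_nhds_unique h h'

theorem dens_none {P : ℕ → Prop} (h : ∀ n, ¬ P n) : HasDensity P 0 := by
  unfold HasDensity
  refine tendsto_const_nhds.congr fun N => ?_
  have e : {n : ℕ | 1 ≤ n ∧ n ≤ N ∧ P n} = ∅ := by
    rw [Set.eq_empty_iff_forall_notMem]
    rintro n ⟨_, _, hn⟩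
    exact h n hn
  unfold count
  rw [e]
  simp

theorem hd_mn {s : ℤ} (hs : s = 1 ∨ s = -1) {S : Set ℤ} {δ : ℝ} :
    Pool.Agent.R105.WR.HD s S δ ↔ Mn (ind (fun n => s * (n : ℤ) ∈ S)) δ := by
  unfold Pool.Agent.R105.WR.HD Mn
  have e : (fun N : ℕ => ((Pool.Agent.R105.WR.W s S N).card : ℝ) / N) =
      fun N : ℕ => (∑ n ∈ Finset.Icc 1 N, ind (fun n => s * (n : ℤ) ∈ S) n) / N := by
    funext N
    rw [← side_count hs S N, Pool.Agent.R105.WR.W_ncard hs]
  rw [e]

theorem hd_has {s : ℤ} (hs : s = 1 ∨ s = -1) {S : Set ℤ} {δ : ℝ}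
    (h : Pool.Agent.H723R2.LSW.HasDensity s S δ) : Mn (ind (fun n => s * (n : ℤ) ∈ S)) δ := by
  unfold Pool.Agent.H723R2.LSW.HasDensity at h
  unfold Mn
  refine h.congr fun N => ?_
  rw [side_count hs S N]

theorem cinv {S : Set ℂ} (hS : CompletelyInvariant S) (x : ℤ) : x ∈ {n : ℤ | (n : ℂ) ∈ S} ↔ T x ∈ {n : ℤ | (n : ℂ) ∈ S} := by
  show (x : ℂ) ∈ S ↔ ((T x : ℤ) : ℂ) ∈ S
  rw [← f_int]
  exact hS _

theorem wild_step (n : ℤ) : Wild n ↔ Wild (T n) :=
  ⟨fun h => Pool.Agent.H723R2.LSW.wild_mer (⟨1, 0, rfl⟩ : Pool.Agent.H723R2.LSW.Mer n (T n)) h,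
    fun h => Pool.Agent.H723R2.LSW.wild_mer (⟨0, 1, rfl⟩ : Pool.Agent.H723R2.LSW.Mer (T n) n) h⟩

theorem wild_iter (n : ℤ) (k : ℕ) : Wild n ↔ Wild (T^[k] n) := by
  induction k generalizing n with
  | zero => rfl
  | succ k ih => rw [wild_step n, ih (T n), Function.iterate_succ_apply]

theorem mer_step (a n : ℤ) : Pool.Agent.H723R2.LSW.Mer n a ↔ Pool.Agent.H723R2.LSW.Mer (T n) a :=
  ⟨fun h => Pool.Agent.H723R2.LSW.Mer.trans (a := T n) (b := n) (c := a) ⟨0, 1, rfl⟩ h,
    fun h => Pool.Agent.H723R2.LSW.Mer.trans (a := n) (b := T n) (c := a) ⟨1, 0, rfl⟩ h⟩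

theorem not_wild_zero : ¬ Wild 0 := by
  intro h
  have := h 1 0 rfl
  omega

theorem enters_unique {R k k' : ℕ} {x : ℤ} (h : Enters R k x) (h' : Enters R k' x) : k = k' := by
  rcases lt_trichotomy k k' with g | g | g
  · exact absurd (h'.2 k g) (not_lt.2 h.1)
  · exact g
  · exact absurd (h.2 k' g) (not_lt.2 h'.1)

theorem enters_fe {R k : ℕ} {x : ℤ} : FE T (fun y => |y| ≤ (R : ℤ)) k x ↔ Enters R k x := by
  unfold FE Enters
  simp only [not_le, f_norm]
  constructor
  · rintro ⟨h1, h2⟩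
    exact ⟨by exact_mod_cast h1, fun i hi => by exact_mod_cast h2 i hi⟩
  · rintro ⟨h1, h2⟩
    exact ⟨by exact_mod_cast h1, fun i hi => by exact_mod_cast h2 i hi⟩

/-- THE FATOU COMPONENTS OF THE INTEGERS OF DIGIT CLASSES.

(1) (Uniform transfer.) For all data `q, m, W` and all `M ≥ 1` there are `K` and `c > 0` such that for both signs
`s`, every completely invariant set `S` of complex numbers, all classes `a`, all residues `b` and all `X ≥ 1` the
number of the `n ≤ X`, `n ≡ b` modulo `M`, in the class with `s n ∈ S` is `∏ 1 / m i` times the number of all such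
`n ≤ X`, `n ≡ b` modulo `M`, up to `K X ^ (1 - c)`.

(2) For all data and all `R` there are `K` and `c > 0` such that for both signs `s`, all sets `B` of pairs of a
time and a complex number, all classes and all `X ≥ 1` the same holds for the `n ≤ X` for which `s n` is in a
wandering domain and its orbit enters the disc `|z| ≤ R` first at a time `k` in a point `z` with `(k, z) ∈ B`.

(3) For both signs `s` there are `w ≥ 0`, which is `0` only if no integer of sign `s` is in a wandering domain,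
and for all integers `a` of sign `s` numbers `β a > 0`, such that `1 - w` is the sum of the `β a` over the cycles
of integers of sign `s`, and for all data the integers of sign `s` in a class have natural density

* `(∏ 1 / m i) w` if they are to lie in wandering domains,
* `(∏ 1 / m i) (β a)` if their orbits are to merge with the orbit of `a`,
* `(∏ 1 / m i) (β a)` if their components are to be attracted to the cycle of the periodic point `a`.

(4) For both signs `s` every completely invariant set `S` of complex numbers has a natural density `δ` among the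
integers of sign `s`, `0` only if it contains none of them; and for all data, all classes, all odd `M`, all `b` and
`0 ≤ u ≤ 1` the `n ≡ b` modulo `M` in the class with `s n ∈ S` for which the distance of `s n` to the Julia set is
at most `(8 / π²) 3 ^ (-u) / n` have natural density `(∏ 1 / m i) (1 - u) δ / M`.

(5) No integer lies in a wandering domain of `f₀` if and only if there are data and a class such that for both
signs `s` the `n` in the class for which `s n` is in a wandering domain have natural density `0`. -/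
theorem result :
    (∀ (l : ℕ) (q m : Fin l → ℕ) (W : Fin l → ℕ → ℤ), Data q m W → ∀ M : ℕ, 1 ≤ M → ∃ K c : ℝ, 0 < c ∧
      ∀ s : ℤ, s = 1 ∨ s = -1 → ∀ S : Set ℂ, CompletelyInvariant S →
      ∀ (a : Fin l → ℤ) (b : ℕ) (X : ℕ), 1 ≤ X →
        |count (fun n => InClass m W a n ∧ n ≡ b [MOD M] ∧ ((s * (n : ℤ) : ℤ) : ℂ) ∈ S) X -
          (∏ i, 1 / (m i : ℝ)) * count (fun n => n ≡ b [MOD M] ∧ ((s * (n : ℤ) : ℤ) : ℂ) ∈ S) X| ≤ K * (X : ℝ) ^ (1 - c)) ∧
    (∀ (l : ℕ) (q m : Fin l → ℕ) (W : Fin l → ℕ → ℤ), Data q m W → ∀ R : ℕ, ∃ K c : ℝ, 0 < c ∧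
      ∀ s : ℤ, s = 1 ∨ s = -1 → ∀ B : Set (ℕ × ℂ), ∀ (a : Fin l → ℤ) (X : ℕ), 1 ≤ X →
        |count (fun n => InClass m W a n ∧ Wandering (s * n) ∧ ∃ k, Enters R k (s * n) ∧ (k, f₀^[k] ((s * n : ℤ) : ℂ)) ∈ B) X -
          (∏ i, 1 / (m i : ℝ)) * count (fun n => Wandering (s * n) ∧ ∃ k, Enters R k (s * n) ∧
            (k, f₀^[k] ((s * n : ℤ) : ℂ)) ∈ B) X| ≤ K * (X : ℝ) ^ (1 - c)) ∧
    (∀ s : ℤ, s = 1 ∨ s = -1 → ∃ (w : ℝ) (β : ℤ → ℝ), 0 ≤ w ∧ (w = 0 ↔ ∀ n : ℤ, 0 < s * n → ¬ Wandering n) ∧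
      (∀ a : ℤ, 0 < s * a → 0 < β a) ∧ HasSum (fun a : {a : ℤ // IsCycleRep s a} => β a) (1 - w) ∧
      ∀ (l : ℕ) (q m : Fin l → ℕ) (W : Fin l → ℕ → ℤ), Data q m W → ∀ t : Fin l → ℤ,
        HasDensity (fun n => InClass m W t n ∧ Wandering (s * n)) ((∏ i, 1 / (m i : ℝ)) * w) ∧
        ∀ a : ℤ, 0 < s * a →
          HasDensity (fun n => InClass m W t n ∧ Merge (s * n) a) ((∏ i, 1 / (m i : ℝ)) * β a) ∧
          ∀ p : ℕ, 0 < p → f₀^[p] (a : ℂ) = a →
            HasDensity (fun n => InClass m W t n ∧ InBasin a p (s * n)) ((∏ i, 1 / (m i : ℝ)) * β a)) ∧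
    (∀ s : ℤ, s = 1 ∨ s = -1 → ∀ S : Set ℂ, CompletelyInvariant S → ∃ δ : ℝ,
      HasDensity (fun n => ((s * (n : ℤ) : ℤ) : ℂ) ∈ S) δ ∧ (δ = 0 ↔ ∀ n : ℤ, 0 < s * n → (n : ℂ) ∉ S) ∧
      ∀ (l : ℕ) (q m : Fin l → ℕ) (W : Fin l → ℕ → ℤ), Data q m W →
        ∀ (a : Fin l → ℤ) (M : ℕ) (b : ℤ) (u : ℝ), Odd M → 0 ≤ u → u ≤ 1 →
          HasDensity (fun n => InClass m W a n ∧ s * (n : ℤ) ≡ b [ZMOD M] ∧ ((s * (n : ℤ) : ℤ) : ℂ) ∈ S ∧
              (n : ℝ) * dist (s * n) ≤ 8 / Real.pi ^ 2 * 3 ^ (-u))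
            ((∏ i, 1 / (m i : ℝ)) * ((1 - u) * δ / M))) ∧
    ((∀ n : ℤ, ¬ Wandering n) ↔
      ∃ (l : ℕ) (q m : Fin l → ℕ) (W : Fin l → ℕ → ℤ) (a : Fin l → ℤ), Data q m W ∧
        ∀ s : ℤ, s = 1 ∨ s = -1 → HasDensity (fun n => InClass m W a n ∧ Wandering (s * n)) 0) := by
  classical
  have hDD : ∀ {l : ℕ} {q m : Fin l → ℕ} {W : Fin l → ℕ → ℤ}, Data q m W → DD 2 q m W := by
    intro l q m W hD
    refine ⟨fun i => (hD.odd i).1, fun i => ?_, hD.coprime, hD.additive, hD.pos, hD.free⟩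
    rw [Nat.coprime_two_left]
    exact Nat.odd_iff.2 (hD.odd i).2
  have hcl : ∀ {l : ℕ} {m : Fin l → ℕ} {W : Fin l → ℕ → ℤ} {a : Fin l → ℤ} (n : ℕ), InClass m W a n ↔ Ed m W a n :=
    fun n => Ed_iff
  have hcnt : ∀ {l : ℕ} {m : Fin l → ℕ} {W : Fin l → ℕ → ℤ} {a : Fin l → ℤ} (P : ℕ → Prop) (X : ℕ),
      count (fun n => InClass m W a n ∧ P n) X = ∑ n ∈ Finset.Icc 1 X, ind (Ed m W a) n * ind P n := by
    intro l m W a P X
    rw [count_ind]
    apply Finset.sum_congr rfl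
    intro n _
    rw [← ind_and]
    exact ind_congr (and_congr (hcl n) Iff.rfl)
  -- sets of integers which are completely invariant
  have hset : ∀ {l : ℕ} {q m : Fin l → ℕ} {W : Fin l → ℕ → ℤ}, Data q m W → ∀ s : ℤ, s = 1 ∨ s = -1 → ∀ S : Set ℤ,
      (∀ x, x ∈ S ↔ T x ∈ S) → ∀ δ : ℝ, Mn (ind (fun n => s * (n : ℤ) ∈ S)) δ → ∀ a : Fin l → ℤ,
      Mn (ind (fun n => Ed m W a n ∧ s * (n : ℤ) ∈ S)) ((∏ i, 1 / (m i : ℝ)) * δ) := by
    intro l q m W hD s hs S hS δ hM a
    obtain ⟨C, c, hC, hc0, _, hT⟩ := inv_ct (adm3 (k := 1) odd_one) (hDD hD)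
    obtain ⟨hρ0, hρ1⟩ := rho01 hD.pos
    have h1 := inv_ct_set (s := s) (fun f hb hf => hT s hs f hb hf a) (S := S) (fun x => by rw [T_eq]; exact hS x)
    exact cls_set hρ0.le hρ1 hc0 h1 hM
  have hksync : ∀ s : ℤ, ∀ S : Set ℤ, (∀ x, x ∈ S ↔ T x ∈ S) → KSync 2 m3 (r3 1) s 1 0 (ind (fun n => s * (n : ℤ) ∈ S)) := by
    intro s S hS
    have h1 := ksync_f (d := 2) (mm := m3) (r := r3 1) (s := s) (f := fun x => if x ∈ S then (1 : ℝ) else 0)
      (fun x => by split_ifs <;> simp) (fun x => by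
        rw [T_eq]
        by_cases hx : x ∈ S
        · rw [if_pos hx, if_pos ((hS x).1 hx)]
        · rw [if_neg hx, if_neg (fun h => hx ((hS x).2 h))])
    have e : (fun n : ℕ => if s * (n : ℤ) ∈ S then (1 : ℝ) else 0) = ind (fun n => s * (n : ℤ) ∈ S) := by
      funext n; unfold ind; rfl
    rw [← e]; exact h1
  refine ⟨fun l q m W hD M hM1 => ?_, fun l q m W hD R => ?_, fun s hs => ?_, fun s hs S hS => ?_, fun h => ?_, ?_⟩
  · obtain ⟨C, c, hC, hc0, _, H⟩ := ct_res (adm3 (k := 1) odd_one) 1 0 (hDD hD) hM1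
    refine ⟨C, c, hc0, fun s hs S hS a b X hX => ?_⟩
    have h1 := (H s hs _ (hksync s {n : ℤ | (n : ℂ) ∈ S} (cinv hS)) a b).tr X hX
    have e : ∀ n : ℕ, (if n % M = b % M then ind (fun n => s * (n : ℤ) ∈ {n : ℤ | (n : ℂ) ∈ S}) n else 0) =
        ind (fun n => n ≡ b [MOD M] ∧ ((s * (n : ℤ) : ℤ) : ℂ) ∈ S) n := by
      intro n
      by_cases h2 : n % M = b % M
      · rw [if_pos h2]
        apply ind_congr
        exact ⟨fun h => ⟨h2, h⟩, fun h => h.2⟩
      · rw [if_neg h2, ind_neg]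
        rintro ⟨h3, _⟩
        exact h2 h3
    simp only [e] at h1
    rw [hcnt, count_ind]
    exact h1
  · obtain ⟨k0, hk0⟩ := ksync_fe (adm3 (k := 1) odd_one) R
    obtain ⟨C, c, hC, hc0, H⟩ := ct_digits (adm3 (k := 1) odd_one) 2 k0 q (hDD hD).three (hDD hD).copd (hDD hD).cop W
      (hDD hD).add m (hDD hD).pos (fun i => obs_one ((hDD hD).free i))
    refine ⟨C, c, hc0, fun s hs B a X hX => ?_⟩
    set P : ℕ → Prop := fun n => Wandering (s * n) ∧ ∃ k, Enters R k (s * n) ∧ (k, f₀^[k] ((s * n : ℤ) : ℂ)) ∈ B with hP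
    have hEF : EF 2 m3 (r3 1) s (fun y => |y| ≤ (R : ℤ)) (ind P) := by
      refine ⟨fun n => by unfold ind; split_ifs <;> simp, fun k n n' h1 h2 _ h4 => ?_, fun n n' h1 h2 => ?_⟩
      · rw [T_eq, enters_fe] at h1 h2
        rw [T_eq] at h4
        apply ind_congr
        have e1 : Wandering (s * n) ↔ Wandering (s * n') := by
          rw [wand_iff, wand_iff, wild_iter (s * n) k, wild_iter (s * n') k, h4]
        have e2 : f₀^[k] ((s * n : ℤ) : ℂ) = f₀^[k] ((s * n' : ℤ) : ℂ) := by rw [f_iter, f_iter, h4]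
        rw [hP]
        dsimp only
        rw [e1]
        apply and_congr_right
        intro _
        constructor
        · rintro ⟨j, hj, hB⟩
          have := enters_unique hj h1
          subst this
          exact ⟨j, h2, by rw [← e2]; exact hB⟩
        · rintro ⟨j, hj, hB⟩
          have := enters_unique hj h2
          subst this
          exact ⟨j, h1, by rw [e2]; exact hB⟩
      · rw [T_eq] at h1 h2
        rw [ind_neg (P := P), ind_neg (P := P)]
        · rintro ⟨_, j, hj, _⟩; exact h2 j (enters_fe.2 hj)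
        · rintro ⟨_, j, hj, _⟩; exact h1 j (enters_fe.2 hj)
    have h2 := (H s hs _ (hk0 s hs _ (fun x hx => hx) _ hEF) a).tr X hX
    rw [hcnt P, count_ind]
    exact h2
  · obtain ⟨w, β, h1, h2, h3, h4, h5⟩ := Pool.Agent.H723R2.LSW.main hs
    have hw := hd_has hs h1
    refine ⟨w, β, ?_, h2, fun a ha => (h3 a ha).1, h5, fun l q m W hD t => ⟨?_, fun a ha => ⟨?_, fun p hp hpa => ?_⟩⟩⟩
    · refine ge_of_tendsto' hw fun N => ?_
      exact div_nonneg (Finset.sum_nonneg fun n _ => ind_nonneg _ n) (Nat.cast_nonneg _)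
    · refine along_of (hset hD s hs {n | IsWanderingDomain Pool.Agent.H723R2.LSW.f₀
        (FatouComponent Pool.Agent.H723R2.LSW.f₀ n)} (fun x => ?_) w hw t) fun n _ => and_congr (hcl n) Iff.rfl
      show Wandering x ↔ Wandering (T x)
      rw [wand_iff, wand_iff]
      exact wild_step x
    · have h6 := hd_has hs (h3 a ha).2
      refine along_of (hset hD s hs {n | ∃ i j : ℕ, Pool.Agent.H723R2.LSW.f₀^[i] (n : ℂ) =
        Pool.Agent.H723R2.LSW.f₀^[j] (a : ℂ)} (fun x => ?_) (β a) h6 t) fun n _ => and_congr (hcl n) Iff.rfl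
      show Merge x a ↔ Merge (T x) a
      rw [merge_iff, merge_iff]
      exact mer_step a x
    · have h6 := hd_has hs (h3 a ha).2
      have hpa' : T^[p] a = a := Pool.Agent.H723R2.LSW.cast_iter.1 hpa
      refine along_of (hset hD s hs {n | ∃ i j : ℕ, Pool.Agent.H723R2.LSW.f₀^[i] (n : ℂ) =
        Pool.Agent.H723R2.LSW.f₀^[j] (a : ℂ)} (fun x => ?_) (β a) h6 t) fun n _ => and_congr (hcl n) ?_
      · show Merge x a ↔ Merge (T x) a
        rw [merge_iff, merge_iff]
        exact mer_step a x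
      · have h7 : InBasin a p (s * n) ↔ Pool.Agent.H723R2.LSW.Mer (s * n) a := Pool.Agent.H723R2.LSW.basin_iff hp hpa'
        rw [h7, ← merge_iff]
        exact Iff.rfl
  · have hS' := cinv hS
    obtain ⟨δ, h1, h2, h3⟩ := Pool.Agent.R105.WR.dens (A := {n : ℤ | (n : ℂ) ∈ S}) hS' hs
    refine ⟨δ, along_of ((hd_mn hs).1 h2) fun n _ => Iff.rfl, h1, fun l q m W hD a M b u hM hu0 hu1 => ?_⟩
    obtain ⟨hρ0, hρ1⟩ := rho01 hD.pos
    set ρ : ℝ := ∏ i, 1 / (m i : ℝ) with hρ
    set A' : Set ℤ := {n : ℤ | (n : ℂ) ∈ S ∧ Ed m W a n.natAbs} with hA'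
    have hnat : ∀ n : ℕ, (s * (n : ℤ)).natAbs = n := by
      intro n
      rcases hs with rfl | rfl <;> simp
    have hres : ∀ Q : ℕ, 1 ≤ Q → ∀ b : ℤ, Pool.Agent.R105.WR.HD s {n | n ∈ A' ∧ n ≡ b [ZMOD Q]} (ρ * δ / Q) := by
      intro Q hQ b
      rw [hd_mn hs]
      obtain ⟨C, c, hC, hc0, _, H⟩ := ct_res (adm3 (k := 1) odd_one) 1 0 (hDD hD) hQ
      have hQ0 : (0 : ℤ) < Q := by exact_mod_cast hQ
      set b' : ℕ := ((s * b) % (Q : ℤ)).toNat with hb'
      have hbb : ((b' : ℕ) : ℤ) = (s * b) % Q := Int.toNat_of_nonneg (Int.emod_nonneg _ hQ0.ne')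
      have hmod : ∀ n : ℕ, n % Q = b' % Q ↔ s * (n : ℤ) ≡ b [ZMOD Q] := by
        intro n
        have e1 : n % Q = b' % Q ↔ (n : ℤ) ≡ s * b [ZMOD Q] := by
          have e2 : n % Q = b' % Q ↔ (n : ℤ) % Q = (b' : ℤ) % Q := by
            constructor
            · intro h; exact_mod_cast h
            · intro h; exact_mod_cast h
          rw [e2, hbb, Int.emod_emod]
          exact Iff.rfl
        rw [e1]
        have hss : s * s = 1 := by rcases hs with rfl | rfl <;> norm_num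
        constructor
        · intro h
          have h4 := h.mul_left s
          rw [← mul_assoc, hss, one_mul] at h4
          exact h4
        · intro h
          have h4 := h.mul_left s
          rw [← mul_assoc, hss, one_mul] at h4
          exact h4
      have h4 := H s hs _ (hksync s {n : ℤ | (n : ℂ) ∈ S} hS') a b'
      have h5 : CT (Ed m W a) ρ C c (ind (fun n => s * (n : ℤ) ∈ {n | n ∈ {n : ℤ | (n : ℂ) ∈ S} ∧ n ≡ b [ZMOD Q]})) := by
        refine h4.congr fun n => ?_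
        by_cases h6 : n % Q = b' % Q
        · rw [if_pos h6]
          apply ind_congr
          exact ⟨fun h => ⟨h, (hmod n).1 h6⟩, fun h => h.1⟩
        · rw [if_neg h6, ind_neg]
          rintro ⟨_, h7⟩
          exact h6 ((hmod n).2 h7)
      have h6 := cls_set hρ0.le hρ1 hc0 h5 ((hd_mn hs).1 (h3 Q hQ b))
      have e : ρ * δ / Q = ρ * (δ / Q) := by ring
      rw [e]
      have e2 : ind (fun n => s * (n : ℤ) ∈ {n | n ∈ A' ∧ n ≡ b [ZMOD Q]}) =
          ind (fun n => Ed m W a n ∧ s * (n : ℤ) ∈ {n | n ∈ {n : ℤ | (n : ℂ) ∈ S} ∧ n ≡ b [ZMOD Q]}) := by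
        funext n
        apply ind_congr
        show ((((s * (n : ℤ) : ℤ) : ℂ) ∈ S ∧ Ed m W a (s * (n : ℤ)).natAbs) ∧ _) ↔ (Ed m W a n ∧ (((s * (n : ℤ) : ℤ) : ℂ) ∈ S ∧ _))
        rw [hnat]
        tauto
      rw [e2]
      exact h6
    have h4 := Pool.Agent.R105.WR.law hs hres hM b hu0 hu1
    have h5 := (hd_mn hs).1 h4
    have e : ρ * ((1 - u) * δ / M) = ρ * δ / M * (1 - u) := by ring
    rw [e]
    refine along_of h5 fun n _ => ?_
    have hab : |((s * (n : ℤ) : ℤ) : ℝ)| = n := by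
      rcases hs with rfl | rfl <;> simp
    show (InClass m W a n ∧ s * (n : ℤ) ≡ b [ZMOD M] ∧ ((s * (n : ℤ) : ℤ) : ℂ) ∈ S ∧ _) ↔
      (((((s * (n : ℤ) : ℤ) : ℂ) ∈ S ∧ Ed m W a (s * (n : ℤ)).natAbs) ∧ s * (n : ℤ) ≡ b [ZMOD M]) ∧ _)
    rw [hnat, hcl, hab]
    constructor
    · rintro ⟨h6, h7, h8, h9⟩
      exact ⟨⟨⟨h8, h6⟩, h7⟩, h9⟩
    · rintro ⟨⟨⟨h8, h6⟩, h7⟩, h9⟩
      exact ⟨h6, h7, h8, h9⟩
  · exact ⟨0, fun i => i.elim0, fun i => i.elim0, fun i => i.elim0, fun i => i.elim0,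
      ⟨fun i => i.elim0, fun i => i.elim0, fun i => i.elim0, fun i => i.elim0, fun i => i.elim0⟩,
      fun s hs => dens_none fun n hn => h _ hn.2⟩
  · rintro ⟨l, q, m, W, a, hD, h⟩ n hn
    have hn0 : n ≠ 0 := by
      rintro rfl
      exact not_wild_zero ((wand_iff 0).1 hn)
    obtain ⟨s, hs, hsb⟩ : ∃ s : ℤ, (s = 1 ∨ s = -1) ∧ 0 < s * n := by
      rcases lt_or_gt_of_ne hn0 with g | g
      · exact ⟨-1, Or.inr rfl, by omega⟩
      · exact ⟨1, Or.inl rfl, by omega⟩
    obtain ⟨w, β, h1, h2, _, _, _⟩ := Pool.Agent.H723R2.LSW.main hs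
    have hw := hd_has hs h1
    have h6 := along_of (P := fun n => InClass m W a n ∧ Wandering (s * n))
      (hset hD s hs {n | IsWanderingDomain Pool.Agent.H723R2.LSW.f₀
        (FatouComponent Pool.Agent.H723R2.LSW.f₀ n)} (fun x => by
          show Wandering x ↔ Wandering (T x)
          rw [wand_iff, wand_iff]
          exact wild_step x) w hw a) fun n _ => and_congr (hcl n) Iff.rfl
    have h7 := dens_unique h6 (h s hs)
    obtain ⟨hρ0, _⟩ := rho01 hD.pos
    have h8 : w = 0 := by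
      rcases mul_eq_zero.1 h7 with h9 | h9
      · exact absurd h9 hρ0.ne'
      · exact h9
    exact h2.1 h8 n hsb hn

end Pool.Agent.Results.MP_071ec9_an.DigitClasses
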