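import Pool.Agent.Run7.h792.FL.Inv
import Pool.Agent.H723R2.LSWDens

set_option autoImplicit false

/-!
# Integers in the wandering domains of `f₀` and functions modulo large odd numbers

Fix `0 < ε < 1`. At the scale `N`, the completely invariant functions of `f₀`, restricted to the integers of one
sign and of modulus at most `N`, are independent, with a power saving which is uniform in the function, of
every function of `n` modulo an odd `q` between `N ^ ε` and `N ^ (1 - ε)` whose Fourier coefficients at the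
nonzero frequencies are at most `q ^ (1 / 2 + η)`. So the integers in wandering domains, and those in the basins
of the superattracting cycles, have their proportional shares in every set of residues of this kind, for
example in the quadratic residues modulo a prime between `N ^ ε` and `N ^ (1 - ε)`, and Q1 is decided by such sets
at infinitely many scales.

Method: the dispersion argument of `Pool.Agent.Run7.h439.DC.Orth` at a level which is a small proportion of
`log q`; the correlations of the function along the progressions modulo the powers of two are, up to `O(q)`,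
autocorrelations over whole periods, and the sum of the squares of the latter is bounded by Parseval.
-/

namespace Pool.Agent.Results.MP_071ec9_an.FlatResidues

open Filter Topology Metric Set Pool.Agent.H384R2.Fatou

/-- The entire function of Letherman, Schleicher and Wood; `f₀ n = T n` for every integer `n`. -/
noncomputable def f₀ (z : ℂ) : ℂ :=
  z / 2 + (z + 1 / 2) * ((1 - Complex.cos (Real.pi * z)) / 2) +
    1 / Real.pi * (1 / 2 - Complex.cos (Real.pi * z)) * Complex.sin (Real.pi * z)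

/-- the Fatou component of the integer `n` is a wandering domain of `f₀` -/
def Wandering (n : ℤ) : Prop := IsWanderingDomain f₀ (FatouComponent f₀ n)

/-- the orbits of `m` and `n` under `f₀` merge -/
def Merge (m n : ℤ) : Prop := ∃ i j : ℕ, f₀^[i] (m : ℂ) = f₀^[j] (n : ℂ)

/-- The integer `n` is in the Fatou set, its component is not a wandering domain and is attracted to the
cycle of `a`, of period (dividing) `p`: all points `z` of the component satisfy `f₀^(k+pm)(z) → a` as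
`m → ∞`, for some `k`. -/
def InBasin (a : ℤ) (p : ℕ) (n : ℤ) : Prop :=
  (n : ℂ) ∈ FatouSet f₀ ∧ ¬ IsWanderingDomain f₀ (FatouComponent f₀ n) ∧
    ∃ k : ℕ, ∀ z ∈ FatouComponent f₀ n, Tendsto (fun m : ℕ => f₀^[k + p * m] z) atTop (𝓝 (a : ℂ))

/-- The cycles of `f₀` in the integers of sign `s`, each represented by its element of least absolute
value. -/
def IsCycleRep (s a : ℤ) : Prop :=
  0 < s * a ∧ (∃ p : ℕ, 0 < p ∧ f₀^[p] (a : ℂ) = a) ∧
    ∀ (j : ℕ) (b : ℤ), f₀^[j] (a : ℂ) = b → s * a ≤ s * b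

/-- the set `S` is completely invariant under `f₀` -/
def CompletelyInvariant (S : Set ℂ) : Prop := ∀ z : ℂ, z ∈ S ↔ f₀ z ∈ S

/-- the orbit of `x` under `f₀` enters the disc `|z| ≤ R` at the time `k` for the first time -/
def Enters (R k : ℕ) (x : ℤ) : Prop := ‖f₀^[k] (x : ℂ)‖ ≤ R ∧ ∀ i < k, (R : ℝ) < ‖f₀^[i] (x : ℂ)‖

/-- `f` has period `q`, values of modulus at most `1`, and its Fourier coefficients at the nonzero
frequencies have modulus at most `q ^ (1 / 2 + η)`. -/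
structure Flat (q : ℕ) (η : ℝ) (f : ℕ → ℂ) : Prop where
  bounded : ∀ n, ‖f n‖ ≤ 1
  periodic : ∀ n, f (n + q) = f n
  fourier : ∀ h : ℕ, 0 < h → h < q →
    ‖∑ a ∈ Finset.range q, f a * Complex.exp (2 * Real.pi * Complex.I * (h * a) / q)‖ ≤ (q : ℝ) ^ (1 / 2 + η)

/-- the mean value of a function with period `q` -/
noncomputable def mean (q : ℕ) (f : ℕ → ℂ) : ℂ := (∑ a ∈ Finset.range q, f a) / q

/-- `A` is a subset of `{0, ..., q - 1}`, and the indicator function of the integers which are congruent to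
an element of `A` modulo `q` is `Flat`. -/
def FlatSet (q : ℕ) (η : ℝ) (A : Finset ℕ) : Prop :=
  A ⊆ Finset.range q ∧ Flat q η (fun n => if n % q ∈ A then 1 else 0)

/-- `q` is odd and `N ^ ε ≤ q ≤ N ^ (1 - ε)`. -/
def InRange (ε : ℝ) (N q : ℕ) : Prop := Odd q ∧ (N : ℝ) ^ ε ≤ q ∧ (q : ℝ) ≤ (N : ℝ) ^ (1 - ε)

/-- the number of the `1 ≤ n ≤ X` with the property `P` -/
noncomputable def count (P : ℕ → Prop) (X : ℕ) : ℝ := (Set.ncard {n : ℕ | 1 ≤ n ∧ n ≤ X ∧ P n} : ℝ)

/-- The set of the positive integers with the property `P` has natural density `l`. -/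
def HasDensity (P : ℕ → Prop) (l : ℝ) : Prop := Tendsto (fun X : ℕ => count P X / X) atTop (𝓝 l)

open Pool.Agent.Run7.h792.FL
open Pool.Agent.Run7.h439.DC
open Pool.Agent.H319R3.GC (Tm Adm)
open Pool.Agent.Y965.PL (Mn MnS ind ind_pos ind_neg ind_congr ind_nonneg)
open Pool.Agent.H723R2.LSW (T Wild)

theorem T_eq : Tm 2 m3 (r3 1) = T := by rw [Tm3]; rfl

theorem f_int (n : ℤ) : f₀ (n : ℂ) = ((T n : ℤ) : ℂ) := Pool.Agent.H723R2.LSW.f₀_int n

theorem f_iter (n : ℤ) (k : ℕ) : f₀^[k] (n : ℂ) = ((T^[k] n : ℤ) : ℂ) := Pool.Agent.H723R2.LSW.f₀_iter n k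

theorem f_norm (n : ℤ) (k : ℕ) : ‖f₀^[k] (n : ℂ)‖ = ((|T^[k] n| : ℤ) : ℝ) := by
  rw [f_iter, Complex.norm_intCast]; push_cast; rfl

theorem wand_iff (n : ℤ) : Wandering n ↔ Wild n := Pool.Agent.H723R2.LSW.wandering_iff n

theorem merge_iff (a b : ℤ) : Merge a b ↔ Pool.Agent.H723R2.LSW.Mer a b := by
  constructor
  · rintro ⟨i, j, h⟩
    rw [f_iter, f_iter] at h
    exact ⟨i, j, by exact_mod_cast h⟩
  · rintro ⟨i, j, h⟩
    exact ⟨i, j, by rw [f_iter, f_iter, h]⟩

theorem count_ind (P : ℕ → Prop) (X : ℕ) : count P X = ∑ n ∈ Finset.Icc 1 X, ind P n := by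
  classical
  unfold count ind
  rw [Finset.sum_boole]
  have e : {n : ℕ | 1 ≤ n ∧ n ≤ X ∧ P n} = ((Finset.Icc 1 X).filter fun n => P n : Finset ℕ) := by
    ext n
    simp only [Set.mem_ofPred_eq, Finset.coe_filter, Finset.mem_Icc, and_assoc]
  rw [e, Set.ncard_coe_finset]

theorem along_of {P Q : ℕ → Prop} {d : ℝ} (h : Mn (ind Q) d) (hPQ : ∀ n, 1 ≤ n → (P n ↔ Q n)) : HasDensity P d := by
  unfold HasDensity
  unfold Mn at h
  refine h.congr fun X => ?_
  rw [count_ind P X]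
  congr 1
  apply Finset.sum_congr rfl
  intro n hn
  exact ind_congr (hPQ _ (Finset.mem_Icc.1 hn).1).symm

theorem dens_unique {P : ℕ → Prop} {a b : ℝ} (h : HasDensity P a) (h' : HasDensity P b) : a = b := tendsto_nhds_unique h h'

theorem dens_none {P : ℕ → Prop} (h : ∀ n, ¬ P n) : HasDensity P 0 := by
  unfold HasDensity
  refine tendsto_const_nhds.congr fun N => ?_
  have e : {n : ℕ | 1 ≤ n ∧ n ≤ N ∧ P n} = ∅ := by
    rw [Set.eq_empty_iff_forall_notMem]
    rintro n ⟨_, _, hn⟩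
    exact h n hn
  unfold count
  rw [e]
  simp

theorem hd_has {s : ℤ} (hs : s = 1 ∨ s = -1) {S : Set ℤ} {δ : ℝ}
    (h : Pool.Agent.H723R2.LSW.HasDensity s S δ) : Mn (ind (fun n => s * (n : ℤ) ∈ S)) δ := by
  unfold Pool.Agent.H723R2.LSW.HasDensity at h
  unfold Mn
  refine h.congr fun N => ?_
  rw [side_count hs S N]

theorem cinv {S : Set ℂ} (hS : CompletelyInvariant S) (x : ℤ) : x ∈ {n : ℤ | (n : ℂ) ∈ S} ↔ T x ∈ {n : ℤ | (n : ℂ) ∈ S} := by
  show (x : ℂ) ∈ S ↔ ((T x : ℤ) : ℂ) ∈ S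
  rw [← f_int]
  exact hS _

theorem wild_step (n : ℤ) : Wild n ↔ Wild (T n) :=
  ⟨fun h => Pool.Agent.H723R2.LSW.wild_mer (⟨1, 0, rfl⟩ : Pool.Agent.H723R2.LSW.Mer n (T n)) h,
    fun h => Pool.Agent.H723R2.LSW.wild_mer (⟨0, 1, rfl⟩ : Pool.Agent.H723R2.LSW.Mer (T n) n) h⟩

theorem wild_iter (n : ℤ) (k : ℕ) : Wild n ↔ Wild (T^[k] n) := by
  induction k generalizing n with
  | zero => rfl
  | succ k ih => rw [wild_step n, ih (T n), Function.iterate_succ_apply]

theorem mer_step (a n : ℤ) : Pool.Agent.H723R2.LSW.Mer n a ↔ Pool.Agent.H723R2.LSW.Mer (T n) a :=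
  ⟨fun h => Pool.Agent.H723R2.LSW.Mer.trans (a := T n) (b := n) (c := a) ⟨0, 1, rfl⟩ h,
    fun h => Pool.Agent.H723R2.LSW.Mer.trans (a := n) (b := T n) (c := a) ⟨1, 0, rfl⟩ h⟩

theorem not_wild_zero : ¬ Wild 0 := by
  intro h
  have := h 1 0 rfl
  omega

theorem enters_unique {R k k' : ℕ} {x : ℤ} (h : Enters R k x) (h' : Enters R k' x) : k = k' := by
  rcases lt_trichotomy k k' with g | g | g
  · exact absurd (h'.2 k g) (not_lt.2 h.1)
  · exact g
  · exact absurd (h.2 k' g) (not_lt.2 h'.1)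

theorem enters_fe {R k : ℕ} {x : ℤ} : FE T (fun y => |y| ≤ (R : ℤ)) k x ↔ Enters R k x := by
  unfold FE Enters
  simp only [not_le, f_norm]
  constructor
  · rintro ⟨h1, h2⟩
    exact ⟨by exact_mod_cast h1, fun i hi => by exact_mod_cast h2 i hi⟩
  · rintro ⟨h1, h2⟩
    exact ⟨by exact_mod_cast h1, fun i hi => by exact_mod_cast h2 i hi⟩

/-- the density of an invariant set -/
theorem inv_density {s : ℤ} (hs : s = 1 ∨ s = -1) {S : Set ℤ} (hS : ∀ x, x ∈ S ↔ T x ∈ S) :
    ∃ δ : ℝ, (δ = 0 ↔ ∀ n : ℤ, 0 < s * n → n ∉ S) ∧ Mn (ind (fun n => s * (n : ℤ) ∈ S)) δ := by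
  obtain ⟨δ, _, _, hδ⟩ := Pool.Agent.H499R2.ND.dens_side odd_one isCoprime_one_left hs (S := S) hS
  have hM := mn_side hs hδ
  refine ⟨δ, ⟨fun h n hn hnS => ?_, fun h => ?_⟩, hM⟩
  · have := Pool.Agent.H499R2.ND.one_pos hs (S := S) hS hnS hn hδ
    linarith
  · refine tendsto_nhds_unique hM ?_
    refine tendsto_const_nhds.congr fun N => ?_
    rw [Finset.sum_eq_zero, zero_div]
    intro n hn
    have hn0 : (0 : ℤ) < n := by exact_mod_cast (Finset.mem_Icc.1 hn).1
    have h1 : 0 < s * (s * (n : ℤ)) := by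
      have e : s * (s * (n : ℤ)) = n := by rcases hs with rfl | rfl <;> ring
      rw [e]; exact hn0
    exact ind_neg (P := fun n : ℕ => s * (n : ℤ) ∈ S) (h _ h1)

/-- THE FATOU COMPONENTS OF THE INTEGERS AND FUNCTIONS MODULO LARGE ODD NUMBERS. Let `0 < ε < 1`; `N ≥ 1`, and `q`
is odd with `N ^ ε ≤ q ≤ N ^ (1 - ε)`.

(I) There are `η`, `c`, `K > 0` with the following properties.

(1) (Uniform transfer.) For every `g` with period `q` and modulus at most `1` whose Fourier coefficients at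
the nonzero frequencies are at most `q ^ (1 / 2 + η)`, both signs `s`, all real functions `f` on the plane with
`f (f₀ z) = f z` and `|f| ≤ 1` and all `X ≤ N` the sum over the `n ≤ X` of `f (s n)` times `g(n)` minus the mean
value of `g` has modulus at most `K N ^ (1 - c)`.

(2) For both signs `s` every completely invariant set `S` of complex numbers has a natural density `δ` among the
integers of sign `s`, `0` only if it contains none of them; and for `0 ≤ v < c`, `τ > 0`, all large `N`, all `q`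
and all flat sets `A` of residues modulo `q` with `|A| ≥ q N ^ (-v)` the number of the `n ≤ N` in the classes of `A`
with `s n ∈ S` is `δ |A| / q * N` up to `τ |A| / q * N`. This applies to the set of the integers in wandering
domains; for the integers whose components are attracted to the cycle of the periodic point `a`, of sign `s`,
the same holds, with `δ > 0`, the sum of these `δ` over the cycles of integers of sign `s` being `1` minus the
density of the integers of sign `s` in wandering domains.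

(3) Let `0 ≤ v < c`. If for both signs `s` there are for infinitely many `N` a number `q` and a flat `A` with
`|A| ≥ q N ^ (-v)` such that `s n` is in a wandering domain for at most `o(|A| / q * N)` of the `n ≤ N` in the
classes of `A`, then no integer is in a wandering domain of `f₀` (this is Q1).

(4) (Examples.) The hypothesis on `g` holds for the primitive Dirichlet characters modulo `q`, for
`exp (2 π i (a n ^ 2 + b n) / q)` with `a` coprime to `q`, and the hypothesis on `A` holds if `q = p` is prime and `A`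
is invariant under multiplication by the `k`-th powers coprime to `p`, where `k + 1 ≤ p ^ (2 η)`.

(II) For every `R` there are `η`, `c`, `K > 0` such that for both signs `s`, all sets `B` of pairs of a time and a
complex number, all `N`, all `q`, all flat sets `A` of residues modulo `q` and all `X ≤ N` the number of those
`n ≤ X` in the classes of `A` for which `s n` is in a wandering domain and its orbit enters the disc `|z| ≤ R`
first at a time `k` in a point `z` with `(k, z) ∈ B` is `|A| / q` times the number of all such `n ≤ X`, up to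
`K N ^ (1 - c)`. -/
theorem result : ∀ ε : ℝ, 0 < ε → ε < 1 →
    (∃ η c K : ℝ, 0 < η ∧ 0 < c ∧ c < 1 ∧ 0 < K ∧
    (∀ N q : ℕ, 1 ≤ N → InRange ε N q → ∀ g : ℕ → ℂ, Flat q η g → ∀ s : ℤ, s = 1 ∨ s = -1 →
      ∀ f : ℂ → ℝ, (∀ z, |f z| ≤ 1) → (∀ z, f (f₀ z) = f z) → ∀ X : ℕ, X ≤ N →
      ‖∑ n ∈ Finset.Icc 1 X, (f ((s * (n : ℤ) : ℤ) : ℂ) : ℂ) * (g n - mean q g)‖ ≤ K * (N : ℝ) ^ (1 - c)) ∧
    (∀ s : ℤ, s = 1 ∨ s = -1 →
      (∀ S : Set ℂ, CompletelyInvariant S → ∃ δ : ℝ,
        HasDensity (fun n => ((s * (n : ℤ) : ℤ) : ℂ) ∈ S) δ ∧ (δ = 0 ↔ ∀ n : ℤ, 0 < s * n → (n : ℂ) ∉ S) ∧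
        ∀ v : ℝ, 0 ≤ v → v < c → ∀ τ : ℝ, 0 < τ → ∃ N₀ : ℕ, ∀ N : ℕ, N₀ ≤ N → ∀ q : ℕ, InRange ε N q →
        ∀ A : Finset ℕ, FlatSet q η A → (q : ℝ) * (N : ℝ) ^ (-v) ≤ A.card →
        |count (fun n => n % q ∈ A ∧ ((s * (n : ℤ) : ℤ) : ℂ) ∈ S) N - δ * (A.card / q * N)| ≤ τ * (A.card / q * N)) ∧
      ∃ (w : ℝ) (β : ℤ → ℝ), 0 ≤ w ∧ (∀ a : ℤ, 0 < s * a → 0 < β a) ∧
        HasSum (fun a : {a : ℤ // IsCycleRep s a} => β a) (1 - w) ∧
        HasDensity (fun n => Wandering (s * n)) w ∧ (w = 0 ↔ ∀ n : ℤ, 0 < s * n → ¬ Wandering n) ∧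
        ∀ v : ℝ, 0 ≤ v → v < c → ∀ τ : ℝ, 0 < τ →
        (∃ N₀ : ℕ, ∀ N : ℕ, N₀ ≤ N → ∀ q : ℕ, InRange ε N q →
          ∀ A : Finset ℕ, FlatSet q η A → (q : ℝ) * (N : ℝ) ^ (-v) ≤ A.card →
          |count (fun n => n % q ∈ A ∧ Wandering (s * n)) N - w * (A.card / q * N)| ≤ τ * (A.card / q * N)) ∧
        ∀ a : ℤ, 0 < s * a → ∀ p : ℕ, 0 < p → f₀^[p] (a : ℂ) = a →
          HasDensity (fun n => InBasin a p (s * n)) (β a) ∧
          ∃ N₀ : ℕ, ∀ N : ℕ, N₀ ≤ N → ∀ q : ℕ, InRange ε N q →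
          ∀ A : Finset ℕ, FlatSet q η A → (q : ℝ) * (N : ℝ) ^ (-v) ≤ A.card →
          |count (fun n => n % q ∈ A ∧ InBasin a p (s * n)) N - β a * (A.card / q * N)| ≤ τ * (A.card / q * N)) ∧
    (∀ v : ℝ, 0 ≤ v → v < c → ∀ ψ : ℕ → ℝ, Tendsto ψ atTop (𝓝 0) →
      (∀ s : ℤ, s = 1 ∨ s = -1 → ∃ᶠ N : ℕ in atTop, ∃ q : ℕ, InRange ε N q ∧ ∃ A : Finset ℕ, FlatSet q η A ∧
        (q : ℝ) * (N : ℝ) ^ (-v) ≤ A.card ∧ count (fun n => n % q ∈ A ∧ Wandering (s * n)) N ≤ ψ N * (A.card / q * N)) →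
      ∀ n : ℤ, ¬ Wandering n) ∧
    (∀ (q : ℕ) (χ : DirichletCharacter ℂ q), 1 ≤ q → χ.IsPrimitive → Flat q η (fun n => χ n)) ∧
    (∀ (q : ℕ) (a b : ℤ), Odd q → IsCoprime a q →
      Flat q η (fun n => Complex.exp (2 * Real.pi * Complex.I * (a * n ^ 2 + b * n) / q))) ∧
    (∀ p k : ℕ, p.Prime → 1 ≤ k → (k : ℝ) + 1 ≤ (p : ℝ) ^ (2 * η) → ∀ A : Finset ℕ, A ⊆ Finset.range p →
      (∀ b : ℕ, Nat.Coprime b p → ∀ a ∈ A, b ^ k * a % p ∈ A) → FlatSet p η A)) ∧
    ∀ R : ℕ, ∃ η c K : ℝ, 0 < η ∧ 0 < c ∧ c < 1 ∧ 0 < K ∧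
      ∀ s : ℤ, s = 1 ∨ s = -1 → ∀ B : Set (ℕ × ℂ), ∀ N q : ℕ, 1 ≤ N → InRange ε N q → ∀ A : Finset ℕ, FlatSet q η A →
      ∀ X : ℕ, X ≤ N →
      |count (fun n => n % q ∈ A ∧ Wandering (s * n) ∧ ∃ k, Enters R k (s * n) ∧ (k, f₀^[k] ((s * n : ℤ) : ℂ)) ∈ B) X -
        (A.card / q : ℝ) * count (fun n => Wandering (s * n) ∧ ∃ k, Enters R k (s * n) ∧
          (k, f₀^[k] ((s * n : ℤ) : ℂ)) ∈ B) X| ≤ K * (N : ℝ) ^ (1 - c) := by
  classical
  have hcnt : ∀ (E P : ℕ → Prop) (X : ℕ), count (fun n => E n ∧ P n) X = ∑ n ∈ Finset.Icc 1 X, ind E n * ind P n := by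
    intro E P X
    rw [count_ind]
    apply Finset.sum_congr rfl
    intro n _
    exact Pool.Agent.Run7.h439.DC.ind_and _ _ n
  intro ε hε hε1
  constructor
  · obtain ⟨η, c, K, hη, hc0, hc1, hK, S₀⟩ := scaleF (adm3 (k := 1) odd_one) 1 0 0 hε hε1
    have hFl : ∀ {q : ℕ} {f : ℕ → ℂ}, Flat q η f → FlatP q η f := fun h => ⟨h.1, h.2, h.3⟩
    have hlF : ∀ {q : ℕ} {f : ℕ → ℂ}, FlatP q η f → Flat q η f := fun h => ⟨h.1, h.2, h.3⟩
    have hFs : ∀ {q : ℕ} {A : Finset ℕ}, FlatSet q η A → FlatI q η A := fun h => ⟨h.1, hFl h.2⟩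
    have hrho : ∀ {N q : ℕ} {A : Finset ℕ} {v : ℝ}, Odd q → (q : ℝ) * (N : ℝ) ^ (-v) ≤ A.card → (N : ℝ) ^ (-v) ≤ (A.card / q : ℝ) := by
      intro N q A v hq h
      have hq0 : 0 < q := hq.pos
      have hqr : (0 : ℝ) < q := by exact_mod_cast hq0
      rw [le_div_iff₀ hqr]
      linarith
    have hmain : ∀ s : ℤ, s = 1 ∨ s = -1 → ∀ S : Set ℤ, (∀ x, x ∈ S ↔ T x ∈ S) → ∀ δ : ℝ,
        Mn (ind (fun n => s * (n : ℤ) ∈ S)) δ → ∀ v : ℝ, 0 ≤ v → v < c → ∀ τ : ℝ, 0 < τ →
        ∃ N₀ : ℕ, 1 ≤ N₀ ∧ ∀ N : ℕ, N₀ ≤ N → ∀ q : ℕ, InRange ε N q →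
        ∀ A : Finset ℕ, FlatSet q η A → (q : ℝ) * (N : ℝ) ^ (-v) ≤ A.card →
        |count (fun n => n % q ∈ A ∧ s * (n : ℤ) ∈ S) N - δ * (A.card / q * N)| ≤ τ * (A.card / q * N) := by
      intro s hs S hS δ hM v hv0 hv τ hτ
      obtain ⟨N₀, hN₀⟩ := (dens hM (C := K) hv hτ).exists_forall_of_atTop
      refine ⟨max N₀ 1, le_max_right _ _, fun N hN q hq A hA' hcard => ?_⟩
      have hN1 : 1 ≤ N := (le_max_right _ _).trans hN
      have h5 := hN₀ N ((le_max_left _ _).trans hN) (fun n => n % q ∈ A) (A.card / q) (hrho hq.1 hcard)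
        (S₀.set1 hs hN1 hq.1.pos (Nat.coprime_two_left.2 hq.1) hq.2.1 hq.2.2 (hFs hA')
          (ksync_set (fun x => by rw [T_eq]; exact hS x)))
      rw [hcnt]
      exact h5
    have hwstep : ∀ x : ℤ, x ∈ {n : ℤ | Wandering n} ↔ T x ∈ {n : ℤ | Wandering n} := by
      intro x
      show Wandering x ↔ Wandering (T x)
      rw [wand_iff, wand_iff]
      exact wild_step x
    have hmstep : ∀ a x : ℤ, x ∈ {n : ℤ | Merge n a} ↔ T x ∈ {n : ℤ | Merge n a} := by
      intro a x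
      show Merge x a ↔ Merge (T x) a
      rw [merge_iff, merge_iff]
      exact mer_step a x
    refine ⟨η, c, K + 1, hη, hc0, hc1, by linarith, ?_, ?_, ?_, ?_, ?_, ?_⟩
    · intro N q hN hq g hg s hs f hb hf X hX
      have hks : KSync 2 m3 (r3 1) s 1 0 (fun n => f (((s * (n : ℤ) : ℤ)) : ℂ)) :=
        ksync_f (d := 2) (mm := m3) (r := r3 1) (s := s) (f := fun x : ℤ => f ((x : ℤ) : ℂ)) (fun x => hb _) (fun x => by
          rw [T_eq]
          show f (((T x : ℤ)) : ℂ) = f (x : ℂ)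
          rw [← f_int]
          exact hf _)
      have h4 := S₀.fun1 hs hN hq.1.pos (Nat.coprime_two_left.2 hq.1) hq.2.1 hq.2.2 (hFl hg) hks hX
      refine h4.trans ?_
      have : 0 ≤ (N : ℝ) ^ (1 - c) := by positivity
      nlinarith
    · intro s hs
      constructor
      · intro S hS
        have hS' := cinv hS
        obtain ⟨δ, h1, h2⟩ := inv_density hs hS'
        refine ⟨δ, along_of h2 fun n _ => Iff.rfl, h1, fun v hv0 hv τ hτ => ?_⟩
        obtain ⟨N₀, _, h3⟩ := hmain s hs _ hS' δ h2 v hv0 hv τ hτ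
        exact ⟨N₀, h3⟩
      · obtain ⟨w, β, h1, h2, h3, h4, h5⟩ := Pool.Agent.H723R2.LSW.main hs
        have hw : Mn (ind (fun n => s * (n : ℤ) ∈ {n : ℤ | Wandering n})) w := hd_has hs h1
        refine ⟨w, β, ?_, fun a ha => (h3 a ha).1, h5, along_of hw fun n _ => Iff.rfl, h2, fun v hv0 hv τ hτ => ⟨?_, ?_⟩⟩
        · refine ge_of_tendsto' hw fun N => ?_
          exact div_nonneg (Finset.sum_nonneg fun n _ => ind_nonneg _ n) (Nat.cast_nonneg _)
        · obtain ⟨N₀, _, h6⟩ := hmain s hs _ hwstep w hw v hv0 hv τ hτ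
          exact ⟨N₀, h6⟩
        · intro a ha p hp hpa
          have hpa' : T^[p] a = a := Pool.Agent.H723R2.LSW.cast_iter.1 hpa
          have h6 : Mn (ind (fun n => s * (n : ℤ) ∈ {n : ℤ | Merge n a})) (β a) := hd_has hs (h3 a ha).2
          have h7 : ∀ n : ℕ, (InBasin a p (s * n) ↔ s * (n : ℤ) ∈ {n : ℤ | Merge n a}) := by
            intro n
            have h8 : InBasin a p (s * n) ↔ Pool.Agent.H723R2.LSW.Mer (s * n) a := Pool.Agent.H723R2.LSW.basin_iff hp hpa'
            rw [h8, ← merge_iff]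
            exact Iff.rfl
          refine ⟨along_of h6 fun n _ => h7 n, ?_⟩
          obtain ⟨N₀, _, h9⟩ := hmain s hs _ (hmstep a) (β a) h6 v hv0 hv τ hτ
          refine ⟨N₀, fun N hN q hq A hA hcard => ?_⟩
          have h10 := h9 N hN q hq A hA hcard
          have e : (fun n : ℕ => n % q ∈ A ∧ InBasin a p (s * n)) = fun n : ℕ => n % q ∈ A ∧ s * (n : ℤ) ∈ {n : ℤ | Merge n a} := by
            funext n
            rw [h7 n]
          rw [e]
          exact h10
    · intro v hv0 hv ψ hψ hfr n hn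
      have hn0 : n ≠ 0 := by
        rintro rfl
        exact not_wild_zero ((wand_iff 0).1 hn)
      obtain ⟨s, hs, hsb⟩ : ∃ s : ℤ, (s = 1 ∨ s = -1) ∧ 0 < s * n := by
        rcases lt_or_gt_of_ne hn0 with g | g
        · exact ⟨-1, Or.inr rfl, by omega⟩
        · exact ⟨1, Or.inl rfl, by omega⟩
      obtain ⟨w, β, h1, h2, _, _, _⟩ := Pool.Agent.H723R2.LSW.main hs
      have hw : Mn (ind (fun n => s * (n : ℤ) ∈ {n : ℤ | Wandering n})) w := hd_has hs h1
      have hw0 : 0 ≤ w := ge_of_tendsto' hw fun N =>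
        div_nonneg (Finset.sum_nonneg fun n _ => ind_nonneg _ n) (Nat.cast_nonneg _)
      have h8 : w = 0 := by
        by_contra hne'
        have hpos : 0 < w := lt_of_le_of_ne hw0 (Ne.symm hne')
        obtain ⟨N₀, hN₀1, hN₀⟩ := hmain s hs _ hwstep w hw v hv0 hv (w / 2) (by positivity)
        have hψ' := hψ.eventually (gt_mem_nhds (show (0 : ℝ) < w / 4 by positivity))
        obtain ⟨N, ⟨q, hq, A, hA', hcard, hfew⟩, hN, hψN⟩ :=
          ((hfr s hs).and_eventually ((eventually_ge_atTop N₀).and hψ')).exists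
        have h5 := hN₀ N hN q hq A hA' hcard
        have hN1' : 1 ≤ N := hN₀1.trans hN
        have hN1 : (1 : ℝ) ≤ N := by exact_mod_cast hN1'
        have hρ := hrho (v := v) hq.1 hcard
        have hρ0 : 0 < (A.card / q : ℝ) := lt_of_lt_of_le (by positivity) hρ
        have h6 : 0 < (A.card / q : ℝ) * N := mul_pos hρ0 (by linarith)
        have h7 := (abs_le.1 h5).1
        have h9 : count (fun n => n % q ∈ A ∧ s * (n : ℤ) ∈ {n : ℤ | Wandering n}) N =
            count (fun n => n % q ∈ A ∧ Wandering (s * n)) N := rfl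
        rw [h9] at h7
        nlinarith
      exact h2.1 h8 n hsb hn
    · intro q χ hq hχ
      exact hlF (flatP_char hq hη.le hχ)
    · intro q a b hq hab
      exact hlF (flatP_quad hη.le hq hab b)
    · intro p k hp hk hkp A hA h
      have h5 := flatI_pow hp hk hkp hA h
      exact ⟨h5.1, hlF h5.2⟩
  · intro R
    obtain ⟨k0, hk0⟩ := ksync_fe (adm3 (k := 1) odd_one) R
    obtain ⟨η, c, K, hη, hc0, hc1, hK, S₀⟩ := scaleF (adm3 (k := 1) odd_one) 2 k0 0 hε hε1
    have hFl : ∀ {q : ℕ} {f : ℕ → ℂ}, Flat q η f → FlatP q η f := fun h => ⟨h.1, h.2, h.3⟩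
    have hFs : ∀ {q : ℕ} {A : Finset ℕ}, FlatSet q η A → FlatI q η A := fun h => ⟨h.1, hFl h.2⟩
    refine ⟨η, c, K + 1, hη, hc0, hc1, by linarith, fun s hs B N q hN hq A hA X hX => ?_⟩
    set P : ℕ → Prop := fun n => Wandering (s * n) ∧ ∃ k, Enters R k (s * n) ∧ (k, f₀^[k] ((s * n : ℤ) : ℂ)) ∈ B with hP
    have hEF : EF 2 m3 (r3 1) s (fun y => |y| ≤ (R : ℤ)) (ind P) := by
      refine ⟨fun n => by unfold ind; split_ifs <;> simp, fun k n n' h1 h2 _ h4 => ?_, fun n n' h1 h2 => ?_⟩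
      · rw [T_eq, enters_fe] at h1 h2
        rw [T_eq] at h4
        apply ind_congr
        have e1 : Wandering (s * n) ↔ Wandering (s * n') := by
          rw [wand_iff, wand_iff, wild_iter (s * n) k, wild_iter (s * n') k, h4]
        have e2 : f₀^[k] ((s * n : ℤ) : ℂ) = f₀^[k] ((s * n' : ℤ) : ℂ) := by rw [f_iter, f_iter, h4]
        rw [hP]
        dsimp only
        rw [e1]
        apply and_congr_right
        intro _
        constructor
        · rintro ⟨j, hj, hB⟩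
          have := enters_unique hj h1
          subst this
          exact ⟨j, h2, by rw [← e2]; exact hB⟩
        · rintro ⟨j, hj, hB⟩
          have := enters_unique hj h2
          subst this
          exact ⟨j, h1, by rw [e2]; exact hB⟩
      · rw [T_eq] at h1 h2
        rw [ind_neg (P := P), ind_neg (P := P)]
        · rintro ⟨_, j, hj, _⟩; exact h2 j (enters_fe.2 hj)
        · rintro ⟨_, j, hj, _⟩; exact h1 j (enters_fe.2 hj)
    have h2 := (S₀.set1 hs hN hq.1.pos (Nat.coprime_two_left.2 hq.1) hq.2.1 hq.2.2 (hFs hA)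
      (hk0 s hs _ (fun x hx => hx) _ hEF)).tr X hX
    rw [hcnt _ P, count_ind P]
    refine h2.trans ?_
    have : 0 ≤ (N : ℝ) ^ (1 - c) := by positivity
    nlinarith

end Pool.Agent.Results.MP_071ec9_an.FlatResidues
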