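import Mathlib
import Pool.Agent.Run7.h263.ID.D1
import Pool.Agent.H723R2.LSWDens

set_option autoImplicit false

/-!
# Isolated integers in wandering domains of the entire `3x+1` interpolation `f₀`

Call a member `n` of a set `S` of integers isolated if it is odd and no even integer near it is in `S`,
where near means at a distance of at most `exp ((log |n|) ^ θ)`, `θ < 1/2`. If an integer of sign `s`
is in a wandering domain of `f₀`, then there are many isolated integers of this sign in wandering
domains, and many isolated ones outside of the wandering domains. So no integer is in a wandering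
domain if and only if the following local rule has only finitely many exceptions: an odd integer `n` is
not in a wandering domain if no even integer near `n` is. For the integers attracted to a given cycle
of negative integers the result is unconditional.

Method. An integer is in a wandering domain if and only if its `3x+1` trajectory is divergent, and it is
attracted to a cycle of integers if and only if its trajectory enters the cycle (starting files
`H723R2`). Long runs of consecutive integers merge almost always (starting files `W38/CR`; the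
version of `Run7/h263/ID/Fwd` with `d = 1` is used), hence a positive proportion of the integers `z` lie
in long intervals without elements of `S`. The interval `[2 ^ j z, 2 ^ j (z + 1)]` contains `δ 2 ^ j`
elements of `S` for large `j`, where `δ > 0` is the density of `S`. Follow one of them downwards: halve
it, if it is even, and otherwise pass to an even element nearby, and halve that. As the interval at
the bottom contains no element of `S`, one meets an isolated element.
-/

open Filter Topology Metric Set

namespace Pool.Agent.Results.MP_071ec9_an.IsolatedWanderingIntegers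

open Pool.Agent.H384R2.Fatou

/-- The entire function of Letherman, Schleicher and Wood; `f₀ n = T n` for every integer `n`, where
`T` is the `3x+1` function. -/
noncomputable def f₀ (z : ℂ) : ℂ :=
  z / 2 + (z + 1 / 2) * ((1 - Complex.cos (Real.pi * z)) / 2) +
    1 / Real.pi * (1 / 2 - Complex.cos (Real.pi * z)) * Complex.sin (Real.pi * z)

/-- The integers whose Fatou component is a wandering domain of `f₀`. -/
def WanderingIntegers : Set ℤ := {n | IsWanderingDomain f₀ (FatouComponent f₀ n)}

/-- The integers `n` in the Fatou set whose component is not a wandering domain and is attracted to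
the cycle of the integer `a`, of period (dividing) `p`: all points `z` of the component satisfy
`f₀^(k+pm)(z) → a` as `m → ∞`, for some `k`. -/
def BasinIntegers (a : ℤ) (p : ℕ) : Set ℤ :=
  {n | (n : ℂ) ∈ FatouSet f₀ ∧ ¬ IsWanderingDomain f₀ (FatouComponent f₀ n) ∧
    ∃ k : ℕ, ∀ z ∈ FatouComponent f₀ n,
      Tendsto (fun m : ℕ => f₀^[k + p * m] z) atTop (𝓝 (a : ℂ))}

/-- The odd elements `n` of `S` such that no even integer at a distance of at most `w |n|` from `n` is
in `S`. -/
def Isolated (w : ℕ → ℝ) (S : Set ℤ) : Set ℤ :=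
  {n | n % 2 = 1 ∧ n ∈ S ∧ ∀ m : ℤ, m % 2 = 0 → |(m : ℝ) - n| ≤ w n.natAbs → m ∉ S}

/-- The integers of sign `s`. -/
def Side (s : ℤ) : Set ℤ := {n | 0 < s * n}

/-- The distance `exp ((log n) ^ θ)`. -/
noncomputable def radius (θ : ℝ) (n : ℕ) : ℝ := Real.exp (Real.log n ^ θ)

/-- The conclusions on the isolated members of `S` of sign `s`. -/
def ManyIsolated (s : ℤ) (S : Set ℤ) : Prop :=
  (∀ M : ℝ, 0 ≤ M → ¬ Summable fun n : ↥(Isolated (fun _ => M) S ∩ Side s) =>
    1 / ((n : ℤ).natAbs : ℝ)) ∧
  ∀ θ : ℝ, 0 < θ → θ < 1 / 2 → (Isolated (radius θ) S ∩ Side s).Infinite ∧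
    ¬ Summable fun n : ↥(Isolated (radius θ) S ∩ Side s) =>
      radius θ (n : ℤ).natAbs / ((n : ℤ).natAbs : ℝ)

/-! ### proofs -/

open Pool.Agent.Run7.h263.ID

open Pool.Agent.H723R2.LSW (T Wild Mer wild_mer basin_iff wandering_iff tame_hits)

theorem T_eq (x : ℤ) : Pool.Agent.H499R2.CO.Tz 1 x = T x := by
  rcases Int.even_or_odd' x with ⟨c, rfl | rfl⟩
  · rw [Pool.Agent.H723R2.LSW.T_even]; unfold Pool.Agent.H499R2.CO.Tz; split_ifs <;> omega
  · rw [Pool.Agent.H723R2.LSW.T_odd]; unfold Pool.Agent.H499R2.CO.Tz; split_ifs <;> omega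

theorem mer_T (x : ℤ) : Mer x (T x) := ⟨1, 0, rfl⟩

theorem wild_inv : Inv 1 {n : ℤ | Wild n} := by
  intro x
  show Wild x ↔ Wild (Pool.Agent.H499R2.CO.Tz 1 x)
  rw [T_eq]
  exact ⟨wild_mer (mer_T x), wild_mer (mer_T x).symm⟩

theorem mer_inv (a : ℤ) : Inv 1 {n : ℤ | Mer n a} := by
  intro x
  show Mer x a ↔ Mer (Pool.Agent.H499R2.CO.Tz 1 x) a
  rw [T_eq]
  exact ⟨(mer_T x).symm.trans, (mer_T x).trans⟩

theorem W_eq : WanderingIntegers = {n : ℤ | Wild n} := by
  ext n
  exact wandering_iff n

theorem W_inv : Inv 1 WanderingIntegers := by rw [W_eq]; exact wild_inv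

theorem B_eq {a : ℤ} {p : ℕ} (hp : 0 < p) (h : f₀^[p] (a : ℂ) = a) :
    BasinIntegers a p = {n : ℤ | Mer n a} := by
  ext n
  exact basin_iff hp (Pool.Agent.H723R2.LSW.cast_iter.1 h)

theorem iter_neg_one (j : ℕ) : T^[j] (-1) = -1 := by
  induction j with
  | zero => rfl
  | succ j ih => rw [Function.iterate_succ_apply, show T (-1) = -1 by decide, ih]

theorem iter_neg_five (j : ℕ) : T^[j] (-5) = -5 ∨ T^[j] (-5) = -7 ∨ T^[j] (-5) = -10 := by
  induction j with
  | zero => left; rfl
  | succ j ih =>
    rw [Function.iterate_succ_apply']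
    rcases ih with h | h | h
    · right; left; rw [h]; decide
    · right; right; rw [h]; decide
    · left; rw [h]; decide

theorem not_wild {s : ℤ} (hs : s = 1 ∨ s = -1 ∨ s = 0) : s ∉ WanderingIntegers := by
  rw [W_eq]
  intro h
  have h3 : T^[2] s = s := by
    rcases hs with rfl | rfl | rfl <;> decide
  have := h 2 0 (by rw [h3]; rfl)
  omega

theorem many' {S : Set ℤ} (hS : Inv 1 S) {s : ℤ} (hs : s = 1 ∨ s = -1) (h1 : ∃ x ∈ S, 0 < s * x)
    (h2 : ∃ x, x ∉ S ∧ 0 < s * x) : ManyIsolated s S := many hS hs h1 h2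

theorem wandering_many {s : ℤ} (hs : s = 1 ∨ s = -1) (h : ∃ x ∈ WanderingIntegers, 0 < s * x) :
    ManyIsolated s WanderingIntegers ∧ ManyIsolated s WanderingIntegersᶜ := by
  obtain ⟨x, hx, hx0⟩ := h
  have hs' : s ∉ WanderingIntegers := not_wild (by tauto)
  have hss : 0 < s * s := by rcases hs with rfl | rfl <;> norm_num
  exact ⟨many' W_inv hs ⟨x, hx, hx0⟩ ⟨s, hs', hss⟩,
    many' W_inv.compl hs ⟨s, hs', hss⟩ ⟨x, not_not.2 hx, hx0⟩⟩

theorem basin_many {s : ℤ} (hs : s = 1 ∨ s = -1) {a : ℤ} {p : ℕ} (ha : 0 < s * a) (hp : 0 < p)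
    (h : f₀^[p] (a : ℂ) = a) (hex : (∃ x, x ∉ BasinIntegers a p ∧ 0 < s * x) ∨ s = -1) :
    ManyIsolated s (BasinIntegers a p) ∧ ManyIsolated s (BasinIntegers a p)ᶜ := by
  rw [B_eq hp h] at hex ⊢
  have hout : ∃ q : ℤ, q ∉ {n : ℤ | Mer n a} ∧ 0 < s * q := by
    rcases hex with hex | rfl
    · exact hex
    · by_contra hcon
      push Not at hcon
      have h1 : Mer (-1) a := by
        by_contra h
        have := hcon (-1) h
        omega
      have h5 : Mer (-5) a := by
        by_contra h
        have := hcon (-5) h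
        omega
      obtain ⟨i, j, hij⟩ : Mer (-1) (-5) := h1.trans h5.symm
      rw [iter_neg_one] at hij
      rcases iter_neg_five j with h | h | h <;> omega
  obtain ⟨q, hq, hq0⟩ := hout
  have hself : a ∈ {n : ℤ | Mer n a} := Mer.refl a
  exact ⟨many' (mer_inv a) hs ⟨a, hself, ha⟩ ⟨q, hq, hq0⟩,
    many' (mer_inv a).compl hs ⟨q, hq, hq0⟩ ⟨a, not_not.2 hself, ha⟩⟩

theorem step (θ : ℝ) (hθ : 0 < θ) (hθ1 : θ < 1 / 2)
    (h : (Summable fun n : ↥(Isolated (radius θ) WanderingIntegers) =>
        radius θ (n : ℤ).natAbs / ((n : ℤ).natAbs : ℝ)) ∨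
      Summable fun n : ↥(Isolated (radius θ) WanderingIntegersᶜ) =>
        radius θ (n : ℤ).natAbs / ((n : ℤ).natAbs : ℝ)) (x : ℤ) : x ∉ WanderingIntegers := by
  refine all_of (G := WanderingIntegersᶜ) W_inv.compl (not_wild (by norm_num))
    (not_wild (by norm_num)) (not_wild (by norm_num)) hθ hθ1 ?_ x
  rcases h with h | h
  · left
    rw [compl_compl]
    exact h
  · right
    exact h

theorem rule24' (θ : ℝ) (h : ∀ᶠ n : ℤ in cofinite, n % 2 = 1 →
      (∀ m : ℤ, m % 2 = 0 → |(m : ℝ) - n| ≤ radius θ n.natAbs → m ∉ WanderingIntegers) →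
      n ∉ WanderingIntegers) :
    Summable fun n : ↥(Isolated (radius θ) WanderingIntegers) =>
      radius θ (n : ℤ).natAbs / ((n : ℤ).natAbs : ℝ) := by
  have h1 := rule24 (w := radius θ) (G := WanderingIntegersᶜ) h
  rw [compl_compl] at h1
  exact fin_is h1 fun n => radius θ n / (n : ℝ)

theorem rule35' (θ : ℝ) (h : ∀ᶠ n : ℤ in cofinite, n % 2 = 1 → n ∉ WanderingIntegers →
      ∃ m : ℤ, m % 2 = 0 ∧ |(m : ℝ) - n| ≤ radius θ n.natAbs ∧ m ∉ WanderingIntegers) :
    Summable fun n : ↥(Isolated (radius θ) WanderingIntegersᶜ) =>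
      radius θ (n : ℤ).natAbs / ((n : ℤ).natAbs : ℝ) :=
  fin_is (rule35 (w := radius θ) (G := WanderingIntegersᶜ) h) fun n => radius θ n / (n : ℝ)

/-- (1) Let `s = 1` or `s = -1`, and suppose that some integer of sign `s` is in a wandering domain of
`f₀`. For every `M`, the odd `n` of sign `s` in wandering domains, such that no even integer at a
distance of at most `M` from `n` is in a wandering domain, have a divergent sum of the `1 / |n|`. For
`0 < θ < 1/2` there are infinitely many such `n` for the distance `exp ((log |n|) ^ θ)`, and the sum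
of the `exp ((log |n|) ^ θ) / |n|` over them diverges. The same is true for the complement of the
set of the integers in wandering domains.

(2) For every integer `a` of sign `s` which is periodic under `f₀`, the same is true for the set of the
integers attracted to the cycle of `a` and its complement, if `s = -1` or if not all integers of
sign `s` are attracted to the cycle of `a`.

(3) Let `0 < θ < 1/2`. The following are equivalent: (i) no integer is in a wandering domain of `f₀`;
(ii) for all but finitely many odd `n`, if no even integer at a distance of at most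
`exp ((log |n|) ^ θ)` from `n` is in a wandering domain, neither is `n`; (iii) for all but finitely
many odd `n` which are not in a wandering domain, some even integer at a distance of at most
`exp ((log |n|) ^ θ)` from `n` is not in a wandering domain; (iv) the sum of the
`exp ((log |n|) ^ θ) / |n|` over the exceptions to (ii) converges; (v) the same for (iii). -/
theorem result :
    (∀ s : ℤ, (s = 1 ∨ s = -1) → (∃ x ∈ WanderingIntegers, 0 < s * x) →
      ManyIsolated s WanderingIntegers ∧ ManyIsolated s WanderingIntegersᶜ) ∧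
    (∀ s : ℤ, (s = 1 ∨ s = -1) → ∀ (a : ℤ) (p : ℕ), 0 < s * a → 0 < p → f₀^[p] (a : ℂ) = a →
      ((∃ x, x ∉ BasinIntegers a p ∧ 0 < s * x) ∨ s = -1) →
      ManyIsolated s (BasinIntegers a p) ∧ ManyIsolated s (BasinIntegers a p)ᶜ) ∧
    ∀ θ : ℝ, 0 < θ → θ < 1 / 2 →
      [∀ n : ℤ, n ∉ WanderingIntegers,
        ∀ᶠ n : ℤ in cofinite, n % 2 = 1 →
          (∀ m : ℤ, m % 2 = 0 → |(m : ℝ) - n| ≤ radius θ n.natAbs → m ∉ WanderingIntegers) →
          n ∉ WanderingIntegers,
        ∀ᶠ n : ℤ in cofinite, n % 2 = 1 → n ∉ WanderingIntegers →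
          ∃ m : ℤ, m % 2 = 0 ∧ |(m : ℝ) - n| ≤ radius θ n.natAbs ∧ m ∉ WanderingIntegers,
        Summable fun n : ↥(Isolated (radius θ) WanderingIntegers) =>
          radius θ (n : ℤ).natAbs / ((n : ℤ).natAbs : ℝ),
        Summable fun n : ↥(Isolated (radius θ) WanderingIntegersᶜ) =>
          radius θ (n : ℤ).natAbs / ((n : ℤ).natAbs : ℝ)].TFAE := by
  refine ⟨fun s hs h => wandering_many hs h,
    fun s hs a p ha hp h hex => basin_many hs ha hp h hex, ?_⟩
  intro θ hθ hθ1
  tfae_have 1 → 2 := fun h => Eventually.of_forall fun n _ _ => h n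
  tfae_have 1 → 3 := fun h => Eventually.of_forall fun n hn _ =>
    ⟨n + 1, by omega, far1 n, h _⟩
  tfae_have 2 → 4 := rule24' θ
  tfae_have 3 → 5 := rule35' θ
  tfae_have 4 → 1 := fun h => step θ hθ hθ1 (Or.inl h)
  tfae_have 5 → 1 := fun h => step θ hθ hθ1 (Or.inr h)
  tfae_finish

end Pool.Agent.Results.MP_071ec9_an.IsolatedWanderingIntegers
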