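import Mathlib
import Pool.Agent.H723R2.LSWDens
import Pool.Agent.Run7.h145.QL.L4
import Pool.Agent.Run7.h145.QL.Y4

set_option autoImplicit false

/-!
Integers in wandering domains and in superattracting basins of the entire interpolation `f₀` of the
`3x+1` function, along the values of quadratic polynomials in several variables.

The values (for example the sums of two squares) have density zero or large multiplicities; all statements
count the points of a box at which the value is in the set.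
-/

namespace Pool.Agent.Results.MP_071ec9_an.QuadraticValues

open Filter Topology Finset
open Pool.Agent.H384R2.Fatou

/-- The entire function of Letherman, Schleicher and Wood; `f₀ n = T n` for every integer `n`, where
`T` is the `3x+1` function. -/
noncomputable def f₀ (z : ℂ) : ℂ :=
  z / 2 + (z + 1 / 2) * ((1 - Complex.cos (Real.pi * z)) / 2) +
    1 / Real.pi * (1 / 2 - Complex.cos (Real.pi * z)) * Complex.sin (Real.pi * z)

/-- Among the integers of sign `s` the set `S` has natural density `d`. -/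
def HasDensity (s : ℤ) (S : Set ℤ) (d : ℝ) : Prop :=
  Tendsto (fun N : ℕ => ({n : ℤ | 0 < s * n ∧ s * n ≤ N ∧ n ∈ S}.ncard : ℝ) / N) atTop (𝓝 d)

/-- The integers whose Fatou component is a wandering domain of `f₀`. -/
def WanderingIntegers : Set ℤ := {n | IsWanderingDomain f₀ (FatouComponent f₀ n)}

/-- The integers `n` in the Fatou set whose component is not a wandering domain and is attracted to
the cycle of the integer `a`, of period (dividing) `p`: all points `z` of the component satisfy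
`f₀^(k+pm)(z) → a` as `m → ∞`, for some `k`. -/
def BasinIntegers (a : ℤ) (p : ℕ) : Set ℤ :=
  {n | (n : ℂ) ∈ FatouSet f₀ ∧ ¬ IsWanderingDomain f₀ (FatouComponent f₀ n) ∧
    ∃ k : ℕ, ∀ z ∈ FatouComponent f₀ n,
      Tendsto (fun m : ℕ => f₀^[k + p * m] z) atTop (𝓝 (a : ℂ))}

/-- The cycles of `f₀` in the integers of sign `s`, each represented by its element of least absolute
value. -/
def IsCycleRep (s a : ℤ) : Prop :=
  0 < s * a ∧ (∃ p : ℕ, 0 < p ∧ f₀^[p] (a : ℂ) = a) ∧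
    ∀ (j : ℕ) (b : ℤ), f₀^[j] (a : ℂ) = b → s * a ≤ s * b

/-- The orbit of the integer `n` under `f₀` visits `a` for the first time at time `k`. -/
def Visits (a : ℤ) (k : ℕ) (n : ℤ) : Prop := f₀^[k] (n : ℂ) = a ∧ ∀ i < k, f₀^[i] (n : ℂ) ≠ a

/-- `2 log |n| / log (4/3) + x * log 3 * √(2 log |n| / (log (4/3))^3)` -/
noncomputable def bound (x : ℝ) (n : ℤ) : ℝ :=
  2 / Real.log (4 / 3) * Real.log |(n : ℝ)| +
    x * (Real.log 3 * Real.sqrt (2 * Real.log |(n : ℝ)| / Real.log (4 / 3) ^ 3))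

/-- The distribution function of the standard normal law. -/
noncomputable def Phi (x : ℝ) : ℝ :=
  ProbabilityTheory.cdf (ProbabilityTheory.gaussianReal 0 1) x

/-- The value at `x` of the quadratic polynomial with quadratic part `∑ A i j x i x j`, linear part
`∑ l i x i` and constant term `c`. -/
def Val {k : ℕ} (A : Fin k → Fin k → ℤ) (l : Fin k → ℤ) (c : ℤ) (x : Fin k → ℤ) : ℤ :=
  ∑ i, ∑ j, A i j * x i * x j + ∑ i, l i * x i + c

/-- The quadratic form `∑ A i j x i x j` has rank at least two: the symmetric matrix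
`A i j + A j i` has a minor of order two that is not zero. -/
def RankTwo {k : ℕ} (A : Fin k → Fin k → ℤ) : Prop :=
  ∃ p q r s : Fin k, (A p r + A r p) * (A q s + A s q) ≠ (A p s + A s p) * (A q r + A r q)

/-- The integral points `x` of the box `a i < x i ≤ b i` with `x ∈ D` at which the polynomial has a value of
sign `s` with `u < value ≤ v`. -/
def Points {k : ℕ} (s : ℤ) (A : Fin k → Fin k → ℤ) (l : Fin k → ℤ) (c : ℤ) (a b : Fin k → ℤ) (u v : ℤ)
    (D : Set (Fin k → ℤ)) : Set (Fin k → ℤ) :=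
  {x | (∀ i, a i < x i ∧ x i ≤ b i) ∧ (u < Val A l c x ∧ Val A l c x ≤ v) ∧ 0 < s * Val A l c x ∧ x ∈ D}

/-- THE FREQUENCY of the set `S` of integers among the values of sign `s` of quadratic polynomials is `f`:
for every integral quadratic form `A` of rank at least two in `k` variables, all `B, ε > 0` and `q ≥ 1`
there is `R₀` such that for all `R ≥ R₀`, for all polynomials with quadratic part `A`, linear coefficients
at most `B R` and constant term at most `B R ^ 2`, all boxes in `[-R, R] ^ k`, all `u`, `v` and all sets `D`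
of integral points periodic modulo `q`, the number of the points `x ∈ D` of the box with a value of sign
`s` between `u` and `v` in `S` is `f` times the number of all points `x ∈ D` of the box with a value of sign
`s` between `u` and `v`, up to `ε R ^ k`. -/
def Frequency (s : ℤ) (S : Set ℤ) (f : ℝ) : Prop := ∀ (k : ℕ) (A : Fin k → Fin k → ℤ), RankTwo A →
  ∀ (B ε : ℝ) (q : ℕ), 0 < B → 0 < ε → 1 ≤ q → ∃ R₀ : ℕ, ∀ R : ℕ, R₀ ≤ R →
  ∀ (l : Fin k → ℤ) (c : ℤ) (a b : Fin k → ℤ), (∀ i, |(l i : ℝ)| ≤ B * R) → |(c : ℝ)| ≤ B * R ^ 2 →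
  (∀ i, |a i| ≤ R ∧ |b i| ≤ R) → ∀ (u v : ℤ) (D : Set (Fin k → ℤ)),
  (∀ x y : Fin k → ℤ, (∀ i, x i ≡ y i [ZMOD q]) → (x ∈ D ↔ y ∈ D)) →
  |({x ∈ Points s A l c a b u v D | Val A l c x ∈ S}.ncard : ℝ) - f * (Points s A l c a b u v D).ncard| ≤ ε * R ^ k

open Pool.Agent.H723R2.LSW (T Mer Wild cast_iter)

theorem T_Td : T = Pool.Agent.H499R2.ND.Td 1 := rfl

theorem freq_of {s : ℤ} (hs : s = 1 ∨ s = -1) {S : Set ℤ} {f : ℝ}
    (h : Pool.Agent.Run7.h145.QL.QV.Fr (fun n : ℕ => s * (n : ℤ) ∈ S) f) : Frequency s S f :=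
  Pool.Agent.Run7.h145.QL.X.of_frS' hs h

/-- relative frequency of an invariant set -/
theorem inv_rel {s : ℤ} (hs : s = 1 ∨ s = -1) {S : Set ℤ} (hS : ∀ n : ℤ, n ∈ S ↔ T n ∈ S) {d : ℝ}
    (h : HasDensity s S d) : Frequency s S d :=
  freq_of hs (Pool.Agent.Run7.h145.QL.RL_inv' Pool.Agent.Run7.h145.QL.QV hs hS h)

theorem wild_T (x : ℤ) : Wild x ↔ Wild (T x) :=
  ⟨Pool.Agent.H723R2.LSW.wild_mer ⟨1, 0, rfl⟩, Pool.Agent.H723R2.LSW.wild_mer ⟨0, 1, rfl⟩⟩

theorem mer_T (a x : ℤ) : Mer x a ↔ Mer (T x) a := by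
  have h1 : Mer x (T x) := ⟨1, 0, rfl⟩
  exact ⟨fun h => h1.symm.trans h, fun h => h1.trans h⟩

theorem merge_eq (a : ℤ) : {n : ℤ | ∃ i j : ℕ, f₀^[i] (n : ℂ) = f₀^[j] (a : ℂ)} = {n | Mer n a} := by
  ext n
  show (∃ i j : ℕ, Pool.Agent.H723R2.LSW.f₀^[i] (n : ℂ) = Pool.Agent.H723R2.LSW.f₀^[j] (a : ℂ)) ↔ Mer n a
  constructor
  · rintro ⟨i, j, h⟩
    rw [Pool.Agent.H723R2.LSW.f₀_iter, Pool.Agent.H723R2.LSW.f₀_iter] at h
    exact ⟨i, j, by exact_mod_cast h⟩
  · rintro ⟨i, j, h⟩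
    exact ⟨i, j, by rw [Pool.Agent.H723R2.LSW.f₀_iter, Pool.Agent.H723R2.LSW.f₀_iter, h]⟩

theorem log_abs {s : ℤ} (hs : s = 1 ∨ s = -1) (n : ℕ) : Real.log |((s * (n : ℤ) : ℤ) : ℝ)| = Real.log n := by
  rw [Real.log_abs, Pool.Agent.W26.HN.log_side hs]

/-- the visits of a cycle representative -/
theorem visits_rel {s : ℤ} (hs : s = 1 ∨ s = -1) {a : ℤ} (ha : IsCycleRep s a) {d : ℝ}
    (h : HasDensity s {n | Mer n a} d) :
    (∀ (q : ℕ) (b : ℤ), 1 ≤ q →
      Frequency s {n | ∃ k : ℕ, Visits a k n ∧ (k : ℤ) ≡ b [ZMOD q]} (d / q) ∧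
      ∀ x : ℝ, Frequency s {n | ∃ k : ℕ, Visits a k n ∧ (k : ℝ) ≤ bound x n ∧ (k : ℤ) ≡ b [ZMOD q]}
        (d * QuadraticValues.Phi x / q)) ∧
    (∀ η : ℝ, 0 < η → Frequency s {n | ∃ k : ℕ, Visits a k n ∧
      |(k : ℝ) - 2 / Real.log (4 / 3) * Real.log (|(n : ℝ)|)| ≤ η * Real.log |(n : ℝ)|} d) := by
  obtain ⟨ha0, ⟨p, hp, hpa'⟩, hmin'⟩ := ha
  have hpa : T^[p] a = a := cast_iter.1 hpa'
  have hmin : ∀ j : ℕ, s * a ≤ s * T^[j] a := fun j => hmin' j _ (cast_iter.2 rfl)
  -- the representative is odd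
  have hodd : a % 2 = 1 := by
    by_contra hcon
    have h1 : a % 2 = 0 := by omega
    have h2 := hmin 1
    rw [Function.iterate_one] at h2
    have h3 : T a = a / 2 := by
      show (if a % 2 = 0 then a / 2 else (3 * a + 1) / 2) = a / 2
      rw [if_pos h1]
    rw [h3] at h2
    rcases hs with rfl | rfl <;> omega
  have hF : ∀ y ∈ ({a} : Finset ℤ), y % 2 = 1 := fun y hy => by
    rw [Finset.mem_singleton] at hy; rw [hy]; exact hodd
  have hper : Function.IsPeriodicPt T p a := hpa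
  have hB : Pool.Agent.Run7.h145.QL.Bd ({a} : Finset ℤ) (∑ i ∈ range p, (T^[i] a).natAbs) := by
    intro y hy i
    rw [Finset.mem_singleton] at hy
    rw [hy]
    show |T^[i] a| ≤ _
    rw [← hper.iterate_mod_apply i]
    have h2 : (T^[i % p] a).natAbs ≤ ∑ i ∈ range p, (T^[i] a).natAbs :=
      Finset.single_le_sum (f := fun i => (T^[i] a).natAbs)
        (fun _ _ => Nat.zero_le _) (Finset.mem_range.2 (Nat.mod_lt _ hp))
    rw [Int.abs_eq_natAbs]
    exact_mod_cast h2
  -- the merging set is the set of the integers which reach `a`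
  have hreach : ∀ n : ℤ, Mer n a ↔ ∃ k, T^[k] n = a := by
    intro n
    constructor
    · rintro ⟨i, j, hij⟩
      have hcp : ∀ m, T^[p * m] a = a := by
        intro m
        rw [Function.iterate_mul]
        exact Function.iterate_fixed hpa m
      refine ⟨p * j - j + i, ?_⟩
      have hle : j ≤ p * j := Nat.le_mul_of_pos_left j hp
      rw [Function.iterate_add_apply, hij, ← Function.iterate_add_apply,
        Nat.sub_add_cancel hle, hcp]
    · rintro ⟨k, hk⟩; exact ⟨k, 0, hk⟩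
  have hE : Pool.Agent.H499R2.ND.Dn (fun n : ℕ => ∃ k : ℕ, Pool.Agent.W26.HN.E {a} k (s * n)) d := by
    refine Pool.Agent.H499R2.LT.Dn_iff (fun n _ => ?_) (Pool.Agent.Run7.h145.QL.dn_side hs h)
    show Mer (s * (n : ℤ)) a ↔ ∃ k : ℕ, Pool.Agent.W26.HN.E {a} k (s * n)
    rw [hreach]
    symm
    constructor
    · rintro ⟨k, hk⟩; exact ⟨k, Finset.mem_singleton.1 hk.1⟩
    · rintro ⟨k, hk⟩
      obtain ⟨j, _, hj⟩ := Pool.Agent.W26.HN.exists_E (F := {a}) (x := s * (n : ℤ)) (k := k)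
        (Finset.mem_singleton.2 hk)
      exact ⟨j, hj⟩
  have hV : ∀ (k : ℕ) (n : ℤ), Pool.Agent.W26.HN.E {a} k n ↔ Visits a k n := by
    intro k n
    unfold Pool.Agent.W26.HN.E Visits
    constructor
    · rintro ⟨h1, h2⟩
      exact ⟨cast_iter.2 (Finset.mem_singleton.1 h1), fun i hi h3 =>
        h2 i hi (Finset.mem_singleton.2 (cast_iter.1 h3))⟩
    · rintro ⟨h1, h2⟩
      exact ⟨Finset.mem_singleton.2 (cast_iter.1 h1), fun i hi h3 =>
        h2 i hi (cast_iter.2 (Finset.mem_singleton.1 h3))⟩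
  obtain ⟨h0, h1, hRL, hlaw⟩ := Pool.Agent.Run7.h145.QL.rel_entr_k Pool.Agent.Run7.h145.QL.QV hs hF hB hE
  refine ⟨fun q b hq => ⟨?_, fun x => ?_⟩, fun η hη => ?_⟩
  · refine freq_of hs (Pool.Agent.Run7.h145.QL.QV.congr 0 (fun n _ => exists_congr fun k => ?_) (hlaw q b 0 hq).2.1)
    rw [hV]
  · have h5 := ((hlaw q b 0 hq).2.2 x).2
    have e : d / (q : ℝ) * Pool.Agent.H499R2.ND.Phi x = d * QuadraticValues.Phi x / q := by
      unfold QuadraticValues.Phi
      rw [← Pool.Agent.H499R2.ND.phi_cdf]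
      ring
    rw [e] at h5
    refine freq_of hs (Pool.Agent.Run7.h145.QL.QV.congr 0 (fun n _ => exists_congr fun k => ?_) h5)
    rw [hV]
    unfold bound
    rw [log_abs hs]
    exact Iff.rfl
  · have hrr := Pool.Agent.H499R2.HL.rr_pos
    have hl3 : 0 < Real.log 3 := Real.log_pos (by norm_num)
    have h6 := Pool.Agent.Run7.h145.QL.lln2 Pool.Agent.Run7.h145.QL.QV (P := fun n : ℕ => ∃ k, Pool.Agent.W26.HN.E {a} k (s * (n : ℤ)))
      (f := fun k n => Pool.Agent.W26.HN.E {a} k (s * (n : ℤ)))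
      (g := fun k _ => (k : ℝ))
      (α := 2 / Real.log (4 / 3))
      (σ := Real.log 3 * Pool.Agent.H499R2.HL.rr) (δ := d) (η := η) (by positivity) h0 h1 hη (fun x => by
        have h7 := ((hlaw 1 0 0 le_rfl).2.2 x).2
        have e1 : d / ((1 : ℕ) : ℝ) * Pool.Agent.H499R2.ND.Phi x = d * Pool.Agent.H499R2.ND.Phi x := by simp
        rw [e1] at h7
        refine Pool.Agent.Run7.h145.QL.QV.congr 0 (fun n _ => exists_congr fun k => and_congr_right fun _ => ?_) h7
        rw [← Pool.Agent.Run7.h145.QL.bk_thr]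
        simp [Int.modEq_one]) hRL (fun n h => h)
    refine freq_of hs (Pool.Agent.Run7.h145.QL.QV.congr 0 (fun n _ => exists_congr fun k => ?_) h6)
    rw [hV, log_abs hs]

/-- WANDERING DOMAINS AND BASINS ALONG QUADRATIC POLYNOMIALS.
Let `s = 1` or `s = -1`. The integers of sign `s` in wandering domains of `f₀` have a natural density
`w`, and Q1 holds for the integers of sign `s` if and only if `w = 0`. In the sense of `Frequency`
(values of sign `s` of quadratic polynomials with quadratic part of rank at least two, at the points of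
boxes and of sets periodic modulo `q`, uniformly in the lower coefficients, the box, the range of values and
the periodic set):
(1) the integers in wandering domains have frequency `w`;
(2) the integers whose orbits merge with the orbit of `a` have frequency `β a > 0`, for every `a` of
sign `s`; this is their natural density;
(3) if `a` is periodic, the integers in the components attracted to the cycle of `a` have frequency
`β a`;
(4) if `a` is the least element (in absolute value) of its cycle, the integers whose orbits visit `a`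
for the first time at a time `≡ b` modulo `q` have frequency `β a / q`, and those for which this time
is, moreover, at most `2 log |n| / log (4/3) + x log 3 √(2 log |n| / (log (4/3))^3)` have frequency
`β a Φ(x) / q`, `Φ` the standard normal distribution function; for every `η > 0` those for which it
is `(2 / log (4/3) ± η) log |n|` have frequency `β a`.
The frequencies `β a` of all cycles and `w` add up to `1`.
(5) Let `S` have the frequency `f`. Then
 (a) for every quadratic polynomial in `k` variables with quadratic part of rank at least two that takes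
     a value of sign `s`, the value is in `S` at the proportion `f` of the points of the cubes `[-N, N] ^ k`
     at which the value has sign `s`;
 (b) `s (x ^ 2 + y ^ 2) ∈ S` for the proportion `f` of the integral points with `0 < x ^ 2 + y ^ 2 ≤ N`;
 (c) `s x y ∈ S` for the proportion `f` of the pairs `1 ≤ x, y ≤ N`;
 (d) if `f > 0` and `β ^ 2 ≠ 4 α γ`, every large `n` has at least `κ n` representations
     `s n = α x ^ 2 + β x y + γ y ^ 2 + t` with positive `x`, `y` at most `√n` and `t ∈ S` of sign `s`.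
(6) For every quadratic polynomial as in (a), Q1 holds for the integers of sign `s` if and only if the
proportion of the points of the cube `[-N, N] ^ k` with a value of sign `s` in wandering domains among
those with a value of sign `s` tends to `0`. -/
theorem result (s : ℤ) (hs : s = 1 ∨ s = -1) : ∃ (w : ℝ) (β : ℤ → ℝ),
    (HasDensity s WanderingIntegers w ∧ Frequency s WanderingIntegers w ∧
      (w = 0 ↔ ∀ n : ℤ, 0 < s * n → n ∉ WanderingIntegers)) ∧
    (∀ a : ℤ, 0 < s * a → 0 < β a ∧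
      HasDensity s {n | ∃ i j : ℕ, f₀^[i] (n : ℂ) = f₀^[j] (a : ℂ)} (β a) ∧
      Frequency s {n | ∃ i j : ℕ, f₀^[i] (n : ℂ) = f₀^[j] (a : ℂ)} (β a)) ∧
    (∀ (a : ℤ) (p : ℕ), 0 < s * a → 0 < p → f₀^[p] (a : ℂ) = a →
      Frequency s (BasinIntegers a p) (β a)) ∧
    (∀ a : ℤ, IsCycleRep s a →
      (∀ (q : ℕ) (b : ℤ), 1 ≤ q →
        Frequency s {n | ∃ k : ℕ, Visits a k n ∧ (k : ℤ) ≡ b [ZMOD q]} (β a / q) ∧
        ∀ x : ℝ, Frequency s {n | ∃ k : ℕ, Visits a k n ∧ (k : ℝ) ≤ bound x n ∧ (k : ℤ) ≡ b [ZMOD q]}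
          (β a * Phi x / q)) ∧
      (∀ η : ℝ, 0 < η → Frequency s {n | ∃ k : ℕ, Visits a k n ∧
        |(k : ℝ) - 2 / Real.log (4 / 3) * Real.log (|(n : ℝ)|)| ≤ η * Real.log |(n : ℝ)|} (β a))) ∧
    HasSum (fun a : {a : ℤ // IsCycleRep s a} => β a) (1 - w) ∧
    (∀ (S : Set ℤ) (f : ℝ), Frequency s S f →
      (∀ (k : ℕ) (A : Fin k → Fin k → ℤ), RankTwo A → ∀ (l : Fin k → ℤ) (c : ℤ) (x₀ : Fin k → ℤ),
        0 < s * ∑ i, ∑ j, A i j * x₀ i * x₀ j →
        Tendsto (fun N : ℕ => ({x : Fin k → ℤ | (∀ i, |x i| ≤ N) ∧ 0 < s * Val A l c x ∧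
          Val A l c x ∈ S}.ncard : ℝ) /
          {x : Fin k → ℤ | (∀ i, |x i| ≤ N) ∧ 0 < s * Val A l c x}.ncard) atTop (𝓝 f)) ∧
      Tendsto (fun N : ℕ => ({p : ℤ × ℤ | 0 < p.1 ^ 2 + p.2 ^ 2 ∧ p.1 ^ 2 + p.2 ^ 2 ≤ N ∧
        s * (p.1 ^ 2 + p.2 ^ 2) ∈ S}.ncard : ℝ) /
        {p : ℤ × ℤ | 0 < p.1 ^ 2 + p.2 ^ 2 ∧ p.1 ^ 2 + p.2 ^ 2 ≤ N}.ncard) atTop (𝓝 f) ∧
      Tendsto (fun N : ℕ => ({p : ℕ × ℕ | 1 ≤ p.1 ∧ 1 ≤ p.2 ∧ p.1 ≤ N ∧ p.2 ≤ N ∧
        s * ((p.1 : ℤ) * (p.2 : ℤ)) ∈ S}.ncard : ℝ) / N ^ 2) atTop (𝓝 f) ∧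
      (0 < f → ∀ α β γ : ℤ, β ^ 2 ≠ 4 * α * γ → ∃ κ : ℝ, 0 < κ ∧ ∃ n₀ : ℕ, ∀ n : ℕ, n₀ ≤ n →
        κ * n ≤ {p : ℤ × ℤ | (0 < p.1 ∧ p.1 ^ 2 ≤ n) ∧ (0 < p.2 ∧ p.2 ^ 2 ≤ n) ∧
          ∃ t ∈ S, 0 < s * t ∧ s * n = (α * p.1 ^ 2 + β * p.1 * p.2 + γ * p.2 ^ 2) + t}.ncard)) ∧
    (∀ (k : ℕ) (A : Fin k → Fin k → ℤ), RankTwo A → ∀ (l : Fin k → ℤ) (c : ℤ) (x₀ : Fin k → ℤ),
      0 < s * ∑ i, ∑ j, A i j * x₀ i * x₀ j →
      (Tendsto (fun N : ℕ => ({x : Fin k → ℤ | (∀ i, |x i| ≤ N) ∧ 0 < s * Val A l c x ∧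
        Val A l c x ∈ WanderingIntegers}.ncard : ℝ) /
        {x : Fin k → ℤ | (∀ i, |x i| ≤ N) ∧ 0 < s * Val A l c x}.ncard) atTop (𝓝 0) ↔
      ∀ n : ℤ, 0 < s * n → n ∉ WanderingIntegers)) := by
  obtain ⟨w, β, hw, hw0, hmer, hbas, hsum⟩ := Pool.Agent.H723R2.LSW.main hs
  have hmerD : ∀ a : ℤ, 0 < s * a → HasDensity s {n | Mer n a} (β a) := by
    intro a ha
    rw [← merge_eq]
    exact (hmer a ha).2
  have hwI : Frequency s WanderingIntegers w := by
    refine inv_rel hs (fun n => ?_) hw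
    show IsWanderingDomain Pool.Agent.H723R2.LSW.f₀ (FatouComponent Pool.Agent.H723R2.LSW.f₀ n) ↔
      IsWanderingDomain Pool.Agent.H723R2.LSW.f₀ (FatouComponent Pool.Agent.H723R2.LSW.f₀ ((T n : ℤ) : ℂ))
    rw [Pool.Agent.H723R2.LSW.wandering_iff, Pool.Agent.H723R2.LSW.wandering_iff]
    exact wild_T n
  have hmerR : ∀ a : ℤ, 0 < s * a → Frequency s {n | Mer n a} (β a) := fun a ha =>
    inv_rel hs (fun n => mer_T a n) (hmerD a ha)
  refine ⟨w, β, ⟨hw, hwI, hw0⟩, fun a ha => ⟨(hmer a ha).1, (hmer a ha).2, ?_⟩, fun a p ha hp hpa => ?_,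
    fun a ha => visits_rel hs ha (hmerD a ha.1), hsum, fun S f hS => ⟨fun k A hA l c x₀ hx => ?_, ?_, ?_,
    fun hf α β γ hd => ?_⟩, fun k A hA l c x₀ hx => ?_⟩
  · rw [merge_eq]; exact hmerR a ha
  · have e : BasinIntegers a p = {n | Mer n a} := by
      ext n
      exact Pool.Agent.H723R2.LSW.basin_iff hp (cast_iter.1 hpa)
    rw [e]
    exact hmerR a ha
  · exact Pool.Agent.Run7.h145.QL.X.cubes_S hs hS hA l c hx
  · exact Pool.Agent.Run7.h145.QL.X.two_squares_S hs hS
  · exact Pool.Agent.Run7.h145.QL.X.products_S hs hS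
  · exact Pool.Agent.Run7.h145.QL.X.represent_S hs hf hS hd
  · have h1 := Pool.Agent.Run7.h145.QL.X.cubes_S hs hwI hA l c hx
    constructor
    · intro h2
      exact hw0.1 (tendsto_nhds_unique h1 h2)
    · intro h2
      rw [← hw0.2 h2]
      exact h1

end Pool.Agent.Results.MP_071ec9_an.QuadraticValues
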